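import Pool.Agent.Lib.H86K.K9
import Pool.Agent.Lib.H76Q.G4
import Pool.Agent.Lib.H76Q.W4

/-!
# K10: the core theorem for fields with a real place: one block
-/

set_option autoImplicit false
set_option linter.unusedSectionVars false
namespace Pool.Agent.H86K
open Module Matrix Polynomial Pool.Agent.H53Toric Pool.Agent.H76P Pool.Agent.H76Q
open Pool.Agent.H76T (IsIdeal Fam Lc)
open Pool.Agent.H76V (Cmp)
open Pool.Agent.H76U (cmp preL IsSplitting)
open Pool.Agent.H76RM (spanK similD)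

/-- Complex conjugation `c` on `Ω`, which fixes `M`, maps the roots of the polynomials to the opposite roots, and the
condition on the Hodge-Tate projectors: for almost all `l` for which the elements of `T₀` are in `ℚ_l` there is
a Hodge-Tate projector which commutes with the Frobenius element and whose class is rational over `ℚ_l`. -/
structure Real {Ω M : Type} [Field Ω] [CharZero Ω] [Field M] {ι : Type*} [Fintype ι] [DecidableEq ι] {G : Type*} [Group G]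
    (ρ : ∀ (l : ℕ) [Fact l.Prime], G →* Matrix.GeneralLinearGroup ι ℚ_[l]) (σ : G) (q : ℚ) {m : ℕ} (F : Fin m → M[X])
    (j : M →+* Ω) (c : Ω ≃+* Ω) (T₀ : Finset Ω) (N : Set ℕ) : Prop where
  cc : ∀ x, c (c x) = x
  cj : ∀ x, c (j x) = j x
  cT : ∀ x ∈ T₀, c x = x
  weil : ∀ b, ∀ y : Ω, (F b).eval₂ j y = 0 → y * c y = algebraMap ℚ Ω q
  fin : N.Finite
  ht : ∀ (l : ℕ) [Fact l.Prime], l ∉ N → ∀ i : Ω →+* AlgebraicClosure ℚ_[l],
    (∀ x ∈ T₀, ∃ y : ℚ_[l], i x = algebraMap ℚ_[l] (AlgebraicClosure ℚ_[l]) y) →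
    ∃ h ∈ properProj (AlgebraicClosure ℚ_[l]) (ρ l),
      h * (ρ l σ).1.map (algebraMap ℚ_[l] (AlgebraicClosure ℚ_[l])) =
        (ρ l σ).1.map (algebraMap ℚ_[l] (AlgebraicClosure ℚ_[l])) * h ∧
      ∀ t : AlgebraicClosure ℚ_[l] ≃ₐ[ℚ_[l]] AlgebraicClosure ℚ_[l],
        ∃ g g' : Matrix ι ι (AlgebraicClosure ℚ_[l]), g ∈ tgen (AlgebraicClosure ℚ_[l]) (ρ l) ∧ g * g' = 1 ∧
          h.map t = g * h * g'

/-- All odd functions are in the configuration. -/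
theorem odd_gen {ι : Type*} [Fintype ι] [DecidableEq ι] {ψ : Matrix ι ι ℚ} {M : Type} [Field M]
    {m : ℕ} {e : Fin m → Matrix ι ι M} {G : Type*} [Group G]
    {ρ : ∀ (l : ℕ) [Fact l.Prime], G →* Matrix.GeneralLinearGroup ι ℚ_[l]}
    {p : ℕ} {σ : G} {q : ℚ} {F : Fin m → M[X]} {Ω : Type} [Field Ω] [CharZero Ω] [IsAlgClosed Ω]
    [Algebra.IsAlgebraic ℚ Ω] {j : M →+* Ω} {c : Ω ≃+* Ω} {T₀ : Finset Ω} {N' : Set ℕ}
    (hr : Real ρ σ q F j c T₀ N') (b : Fin m)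
    {n : ℕ} {a : Fin n → Ω} (hn : 0 < n) (ha : Function.Injective a)
    (hroot : ∀ y : Ω, (F b).eval₂ j y = 0 ↔ ∃ k, y = a k) (hone : IsBlock (1 : Module.End ℚ (YS a)))
    (two : ∀ k : ℕ, 4 ≤ k → n ≠ 2 ^ k) (hq : q ≠ 0) {bar : Equiv.Perm (Fin n)}
    (hbar : ∀ k, a k * a (bar k) = algebraMap ℚ Ω q)
    (loc : ∀ (l : ℕ) [Fact l.Prime], l ≠ p → ∀ i : Ω →+* AlgebraicClosure ℚ_[l],
      ∃ (H₀ : Subgroup G) (U : Matrix ι (Fin n) (AlgebraicClosure ℚ_[l]))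
        (V : Matrix (Fin n) ι (AlgebraicClosure ℚ_[l])), H₀.FiniteIndex ∧
        Loc (ψ.map (algebraMap ℚ (AlgebraicClosure ℚ_[l]))) (img (AlgebraicClosure ℚ_[l]) (ρ l) H₀)
          (properProj (AlgebraicClosure ℚ_[l]) (ρ l)) ((e b).map (i.comp j))
          ((ρ l σ).1.map (algebraMap ℚ_[l] (AlgebraicClosure ℚ_[l])))
          (algebraMap ℚ (AlgebraicClosure ℚ_[l]) q) U V (fun k => i (a k)) (YS a)) :
    (∀ k, bar (bar k) = k) ∧ (∀ k, bar k ≠ k) ∧
      ∀ f : Fin n → ℚ, (∀ k, f (bar k) = -f k) → f ∈ YS a := by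
  classical
  have hq0 : (algebraMap ℚ Ω q) ≠ 0 := by
    rw [Ne, _root_.map_eq_zero]
    exact hq
  have ha0 : ∀ k, a k ≠ 0 := by
    intro k hk
    have h1 := hbar k
    rw [hk, zero_mul] at h1
    exact hq0 h1.symm
  have hca : ∀ k, c (a k) = a (bar k) := by
    intro k
    apply mul_left_cancel₀ (ha0 k)
    rw [hbar k, hr.weil b _ ((hroot _).2 ⟨k, rfl⟩)]
  have hbb : ∀ k, bar (bar k) = k := by
    intro k
    apply ha
    rw [← hca, ← hca, hr.cc]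
  -- the finite set
  set T : Finset Ω := Finset.univ.image a ∪ T₀ ∪ Finset.univ.image (fun w : ι × ι => j ((e b) w.1 w.2)) with hT
  have hTc : ∀ x ∈ T, c x ∈ T := by
    intro x hx
    rw [hT, Finset.mem_union, Finset.mem_union] at hx ⊢
    rcases hx with (hx | hx) | hx
    · obtain ⟨k, -, rfl⟩ := Finset.mem_image.1 hx
      rw [hca]
      exact Or.inl (Or.inl (Finset.mem_image_of_mem _ (Finset.mem_univ _)))
    · rw [hr.cT x hx]
      exact Or.inl (Or.inr hx)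
    · obtain ⟨w, -, rfl⟩ := Finset.mem_image.1 hx
      rw [hr.cj]
      exact Or.inr (Finset.mem_image_of_mem _ (Finset.mem_univ w))
  have hTa : ∀ k, a k ∈ T := by
    intro k
    rw [hT, Finset.mem_union, Finset.mem_union]
    exact Or.inl (Or.inl (Finset.mem_image_of_mem _ (Finset.mem_univ _)))
  have hTe : ∀ u v, j ((e b) u v) ∈ T := by
    intro u v
    rw [hT, Finset.mem_union]
    exact Or.inr (Finset.mem_image_of_mem (fun w : ι × ι => j ((e b) w.1 w.2)) (Finset.mem_univ (u, v)))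
  have hadj : ∀ x ∈ T, x ∈ IntermediateField.adjoin ℚ (T : Set Ω) :=
    fun x hx => IntermediateField.subset_adjoin ℚ _ hx
  -- `bar` has no fixed point: local data at any prime
  have hbne0 : bar ⟨0, hn⟩ ≠ ⟨0, hn⟩ := by
    obtain ⟨l, hl, hlp⟩ : ∃ l : ℕ, l.Prime ∧ l ≠ p := by
      obtain ⟨l, hl, hlp⟩ := Nat.exists_infinite_primes (p + 1)
      exact ⟨l, hlp, by omega⟩
    have : Fact l.Prime := ⟨hl⟩
    let i : Ω →+* AlgebraicClosure ℚ_[l] :=
      (IsAlgClosed.lift (R := ℚ) (S := Ω) (M := AlgebraicClosure ℚ_[l])).toRingHom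
    obtain ⟨H₀, U, V, -, hL⟩ := loc l hlp i
    intro hk
    have hbar' : ∀ k, i (a k) * i (a (bar k)) = algebraMap ℚ (AlgebraicClosure ℚ_[l]) q := by
      intro k
      rw [← map_mul, hbar k, eq_ratCast, eq_ratCast, map_ratCast]
    have h1 : ∀ k', (Uᵀ * ψ.map (algebraMap ℚ (AlgebraicClosure ℚ_[l])) * U) ⟨0, hn⟩ k' = 0 := by
      intro k'
      by_contra h2
      have h3 := pair_bar hL hbar' (fun k => (_root_.map_ne_zero i).2 (ha0 k)) _ _ h2
      rw [hk] at h3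
      rw [h3] at h2
      have h4 := congrFun (congrFun hL.ts.cmp.Jt ⟨0, hn⟩) ⟨0, hn⟩
      rw [Matrix.transpose_apply, Matrix.neg_apply] at h4
      exact h2 (self_eq_neg.1 h4)
    have h3 := hL.ts.cmp.Jd
    rw [Matrix.det_eq_zero_of_row_eq_zero _ h1] at h3
    exact not_isUnit_zero h3
  obtain ⟨l, hlf, hlN, i, t, ht1, ht2⟩ := exists_flip c hr.cc T hTc (hTa ⟨0, hn⟩)
    (by rw [hca]; exact fun h => hbne0 (ha h)) (N := N' ∪ {p}) (hr.fin.union (Set.finite_singleton p))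
  have hlN' : l ∉ N' := fun h => hlN (Or.inl h)
  have hlp : l ≠ p := fun h => hlN (Or.inr h)
  obtain ⟨y, hy, hyx, hyt⟩ := hr.ht l hlN' i (fun x hx => by
    have hxT : x ∈ T := by
      rw [hT, Finset.mem_union, Finset.mem_union]
      exact Or.inl (Or.inr hx)
    exact ht2 x (hadj x hxT) (hr.cT x hx))
  obtain ⟨g, g', hg, hgg, hconj⟩ := hyt t
  obtain ⟨H₀, U, V, -, hL⟩ := loc l hlp i
  have hrat : ∀ r : ℚ, t (algebraMap ℚ (AlgebraicClosure ℚ_[l]) r) = algebraMap ℚ (AlgebraicClosure ℚ_[l]) r := by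
    intro r
    rw [eq_ratCast, map_ratCast]
  have hbase : ∀ A : Matrix ι ι ℚ_[l], (A.map (algebraMap ℚ_[l] (AlgebraicClosure ℚ_[l]))).map (t : AlgebraicClosure ℚ_[l] ≃+* AlgebraicClosure ℚ_[l]) =
      A.map (algebraMap ℚ_[l] (AlgebraicClosure ℚ_[l])) := by
    intro A
    ext u v
    exact t.commutes _
  obtain ⟨hbne, hodd⟩ := full_local hL hone two (τ := (t : AlgebraicClosure ℚ_[l] ≃+* AlgebraicClosure ℚ_[l]))
    (by
      ext u v
      show t (i (j ((e b) u v))) = i (j ((e b) u v))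
      rw [ht1 _ (hadj _ (hTe u v)), hr.cj])
    (hbase _)
    (by
      ext u v
      exact hrat _)
    (by
      rintro _ ⟨γ, -, rfl⟩
      exact hbase _)
    (bar := bar)
    (by
      intro k
      show t (i (a k)) = i (a (bar k))
      rw [ht1 _ (hadj _ (hTa k)), hca])
    (by
      intro k
      rw [← map_mul, hbar k, eq_ratCast, eq_ratCast, map_ratCast])
    hy hyx hg hgg hconj
  exact ⟨hbb, hbne, hodd⟩

section
variable {ι : Type*} [Fintype ι] [DecidableEq ι] {ψ : Matrix ι ι ℚ}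
    {D : Subalgebra ℚ (Matrix ι ι ℚ)} {M : Type} [Field M] [NumberField M]
    {m : ℕ} {e : Fin m → Matrix ι ι M} {G : Type*} [Group G]
    {ρ : ∀ (l : ℕ) [Fact l.Prime], G →* Matrix.GeneralLinearGroup ι ℚ_[l]}
    {p : ℕ} [Fact p.Prime] {σ : G} {q : ℚ} {f : ℚ[X]} {F : Fin m → M[X]}
    {φ μ ν : Matrix ι ι (AlgebraicClosure ℚ_[p])} {v : AlgebraicClosure ℚ_[p] → ℚ}
    {Δ : Set (AlgebraicClosure ℚ_[p] ≃+* AlgebraicClosure ℚ_[p])}
    {Ω : Type} [Field Ω] [CharZero Ω] [IsAlgClosed Ω] [Algebra.IsAlgebraic ℚ Ω] {j : M →+* Ω}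
    {R : Finset Ω} {N : Set ℕ}

/-- **Fields with a real place: no binomial exceptions** (first version). -/
theorem core_full (C : Core ψ D e ρ p σ q f F φ μ ν v Δ j R N) {c : Ω ≃+* Ω} {T₀ : Finset Ω} {N' : Set ℕ}
    (hr : Real ρ σ q F j c T₀ N') (b : Fin m)
    {n : ℕ} {a : Fin n → Ω} (hn : 0 < n) (ha : Function.Injective a)
    (hroot : ∀ y : Ω, (F b).eval₂ j y = 0 ↔ ∃ k, y = a k) (hone : IsBlock (1 : Module.End ℚ (YS a)))
    (two : ∀ k : ℕ, 4 ≤ k → n ≠ 2 ^ k) {K : Type*} [Field K] [CharZero K] [IsAlgClosed K]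
    {L : Submodule K (Module.End K (Fin n → K))} {J : Matrix (Fin n) (Fin n) K} (hT : TS L J) (hY : Yo L = YS a)
    {X : Module.End K (Fin n → K)} (hX : adjE J X = -X) : X ∈ L := by
  obtain ⟨bar, hbar⟩ := C.bar b ha hroot
  obtain ⟨hbb, hbne, hodd⟩ := odd_gen hr b hn ha hroot hone two (C.g4_q b) hbar
    (fun l _ hlp i => C.locl b ha hroot l hlp i)
  have : Nonempty (Fin n) := ⟨⟨0, hn⟩⟩
  exact full_of_odd hT hY hone (by rw [Fintype.card_fin]; exact two) hbb hbne hodd hX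

/-- **Fields with a real place: no binomial exceptions** (second version). -/
theorem core2_full (C : Core2 ψ D e ρ p σ q f F φ μ ν v Δ j R N) {c : Ω ≃+* Ω} {T₀ : Finset Ω} {N' : Set ℕ}
    (hr : Real ρ σ q F j c T₀ N') (b : Fin m)
    {n : ℕ} {a : Fin n → Ω} (hn : 0 < n) (ha : Function.Injective a)
    (hroot : ∀ y : Ω, (F b).eval₂ j y = 0 ↔ ∃ k, y = a k) (hone : IsBlock (1 : Module.End ℚ (YS a)))
    (two : ∀ k : ℕ, 4 ≤ k → n ≠ 2 ^ k) {K : Type*} [Field K] [CharZero K] [IsAlgClosed K]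
    {L : Submodule K (Module.End K (Fin n → K))} {J : Matrix (Fin n) (Fin n) K} (hT : TS L J) (hY : Yo L = YS a)
    {X : Module.End K (Fin n → K)} (hX : adjE J X = -X) : X ∈ L := by
  obtain ⟨bar, hbar⟩ := C.bar b ha hroot
  obtain ⟨hbb, hbne, hodd⟩ := odd_gen hr b hn ha hroot hone two (C.w4_q b) hbar
    (fun l _ hlp i => C.locl b ha hroot l hlp i)
  have : Nonempty (Fin n) := ⟨⟨0, hn⟩⟩
  exact full_of_odd hT hY hone (by rw [Fintype.card_fin]; exact two) hbb hbne hodd hX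

end

/-- Blocks without the condition on binomial coefficients. -/
theorem exists_blocks2 {n : ℕ} (hn : 0 < n) {Y : Submodule ℚ (Fin n → ℚ)}
    (hs : ∀ g ∈ Y, ∑ k, g k = 0) :
    ∃ FF : Finset (Module.End ℚ Y), (∀ P ∈ FF, Sp P ∧ P ≠ 0 ∧ Good P) ∧
      (∀ P ∈ FF, ∀ P' ∈ FF, P ≠ P' → P * P' = 0) ∧ ∑ P ∈ FF, P = 1 ∧
      (∀ π : Equiv.Perm (Fin n), (∀ g ∈ Y, g ∘ π ∈ Y) → ∀ P ∈ FF, ∃ P' ∈ FF, MvP π P P') ∧
      (FF.card = 1 → IsBlock (1 : Module.End ℚ Y)) := by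
  classical
  have : Nonempty (Fin n) := ⟨⟨0, hn⟩⟩
  obtain ⟨B, hB, hsum, horth, hsp⟩ := exists_isBlock (Y := Y) hs
  refine ⟨B, fun P hP => ⟨(hsp P hP).1, (hsp P hP).2, ?_⟩, horth, hsum, fun π hπ P hP => ?_, fun h1 => ?_⟩
  · intro K _ _ _ L J hT hY
    exact ((hB P).1 hP).comp hT hY
  · obtain ⟨P', -, hP', -, -, h1, h2⟩ := ((hB P).1 hP).perm hπ
    exact ⟨P', (hB P').2 hP', h1, h2⟩
  · exact isBlock_one hs hB h1

end Pool.Agent.H86K
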