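import Pool.Agent.Lib.H76Q.Q6
import Pool.Agent.Lib.H76Q.W9
import Pool.Agent.Lib.H76Q.W11a
import Pool.Agent.Lib.H76Q.G10
import Pool.Agent.Lib.H76Q.A3
import Pool.Agent.Lib.H76Q.W1
import Pool.Agent.Lib.H86K.K10

/-!
# K12: the component theorem at p, with the alternative for fields with a real place
-/

set_option autoImplicit false
set_option linter.unusedSectionVars false
namespace Pool.Agent.H76Q
open Module Matrix Polynomial Pool.Agent.H53Toric
open Pool.Agent.H76P
open Pool.Agent.H76T (IsIdeal Fam Lc)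
open Pool.Agent.H76V (Cmp)
open Pool.Agent.H76U (cmp preL IsSplitting)
open Pool.Agent.H76RM (spanK similD)

variable {ι : Type*} [Fintype ι] [DecidableEq ι] {ψ : Matrix ι ι ℚ}
    {D : Subalgebra ℚ (Matrix ι ι ℚ)} {M : Type} [Field M] [NumberField M]
    {m : ℕ} {e : Fin m → Matrix ι ι M} {G : Type*} [Group G]
    {ρ : ∀ (l : ℕ) [Fact l.Prime], G →* Matrix.GeneralLinearGroup ι ℚ_[l]}
    {p : ℕ} [Fact p.Prime] {σ : G} {q : ℚ} {f : ℚ[X]} {F : Fin m → M[X]}
    {φ μ ν : Matrix ι ι (AlgebraicClosure ℚ_[p])} {v : AlgebraicClosure ℚ_[p] → ℚ}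
    {Δ : Set (AlgebraicClosure ℚ_[p] ≃+* AlgebraicClosure ℚ_[p])}
    {Ω : Type} [Field Ω] [CharZero Ω] [IsAlgClosed Ω] [Algebra.IsAlgebraic ℚ Ω] {j : M →+* Ω}
    {R : Finset Ω} {N : Set ℕ} (C : Core2 ψ D e ρ p σ q f F φ μ ν v Δ j R N)

include C

/-- PROOF. `Core2.enum`, `n = (e b).rank`; `exists_blocks` (G10) for `Y = YS a` (`hs` by definition, `hsep`: `YS_sep`, A3, with `Core2.tor`), `Core2.types` (G9), `count_blocks`: `n = a' ^ k`, `k = FF.card`, `k ∣ R.card`, so `k = 1` by `part` (`k ≠ 0`: otherwise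
`1 = ∑ P = 0`, `YS a = 0`, `n ≤ 1` by `hsep`; but `n` is even and `> 0`, because `Uᵀ J U` of `Core2.locp` is alternating and invertible).  For any local data `L` is full. -/
theorem Core2.compR (part : ∀ b (k : ℕ) (c : Ω → Fin k) (A : Fin k → ℕ), 2 ≤ k →
      PartD D j (e b) (F b) q R c A → (e b).rank ≠ ∏ x, A x)
    (two : ∀ b (k : ℕ), 4 ≤ k → (e b).rank ≠ 2 ^ k)
    (alt : (∀ b (k : ℕ), 3 ≤ k → Odd k → (e b).rank ≠ k.centralBinom) ∨
      ∃ (c : Ω ≃+* Ω) (T₀ : Finset Ω) (N' : Set ℕ), Pool.Agent.H86K.Real ρ σ q F j c T₀ N') (b : Fin m) :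
    ∃ a : Fin (e b).rank → Ω, Function.Injective a ∧
      (∀ y : Ω, (F b).eval₂ j y = 0 ↔ ∃ k, y = a k) ∧
      ∀ (K : Type) [Field K] [CharZero K] [IsAlgClosed K]
        (L : Submodule K (Module.End K (Fin (e b).rank → K)))
        (J : Matrix (Fin (e b).rank) (Fin (e b).rank) K),
        TS L J → Yo L = YS a → ∀ X, adjE J X = -X → X ∈ L := by
  obtain ⟨a, ha, hroot⟩ := C.enum b
  refine ⟨a, ha, hroot, fun K _ _ _ L J hT hY X hX => ?_⟩
  rcases Nat.eq_zero_or_pos (e b).rank with hn | hn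
  · have : IsEmpty (Fin (e b).rank) := by rw [hn]; infer_instance
    have h0 : X = 0 := LinearMap.ext fun z => Subsingleton.elim _ _
    rw [h0]
    exact L.zero_mem
  have hq0 : q ≠ 0 := by
    obtain ⟨l, hl, hlp⟩ : ∃ l : ℕ, l.Prime ∧ l ≠ p := by
      obtain ⟨l, hl, hlp⟩ := Nat.exists_infinite_primes (p + 1)
      exact ⟨l, hlp, by omega⟩
    have : Fact l.Prime := ⟨hl⟩
    rintro rfl
    have h1 := congrArg Matrix.det (C.mult l hlp)
    rw [map_zero, zero_smul, Matrix.det_mul, Matrix.det_mul, Matrix.det_transpose] at h1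
    have h2 : (ρ l σ).1.det ≠ 0 := by
      have h3 : IsUnit (ρ l σ).1.det := (Matrix.isUnit_iff_isUnit_det _).1 (ρ l σ).isUnit
      exact h3.ne_zero
    have h4 : (ψ.map (algebraMap ℚ ℚ_[l])).det ≠ 0 := by
      have h5 : (ψ.map (algebraMap ℚ ℚ_[l])).det = algebraMap ℚ ℚ_[l] ψ.det := (RingHom.map_det _ _).symm
      rw [h5]
      exact (_root_.map_ne_zero _).2 C.hψ0
    have h6 : Nonempty ι := by
      by_contra hcon
      rw [not_nonempty_iff] at hcon
      have h7 := (e b).rank_le_card_width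
      rw [Fintype.card_eq_zero] at h7
      omega
    rw [Matrix.det_zero] at h1
    exact mul_ne_zero (mul_ne_zero h2 h4) h2 h1
  obtain ⟨bar, hbar⟩ := C.bar b ha hroot
  have ha0 : ∀ k, a k ≠ 0 := by
    intro k hk
    have h1 := hbar k
    rw [hk, zero_mul] at h1
    exact (_root_.map_ne_zero _).2 hq0 h1.symm
  have hsep : ∀ k l, k ≠ l → ∃ g ∈ YS a, g k ≠ g l :=
    YS_sep ha0 fun k l n hn h => ha (C.tor b ((hroot _).2 ⟨k, rfl⟩) ((hroot _).2 ⟨l, rfl⟩) hn h)
  have hs : ∀ g ∈ YS a, ∑ k, g k = 0 := fun g hg => hg.1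
  obtain ⟨FF, hFF, horth, hsum, hperm, hone⟩ := Pool.Agent.H86K.exists_blocks2 hn hs
  have : Nonempty (Fin (e b).rank) := ⟨⟨0, hn⟩⟩
  have hF1 : FF.card = 1 := by
    rcases Nat.lt_or_ge FF.card 2 with h5 | h5
    · interval_cases h6 : FF.card
      · exfalso
        have hcard : (e b).rank = 1 := by
          have h7 := prod_nz hs hsep (fun P hP => (hFF P hP).1) horth hsum
          rw [Finset.card_eq_zero.1 h6, Finset.prod_empty, Fintype.card_fin] at h7
          exact h7
        -- one point: there is no symplectic form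
        have h7 : J.det = 0 := by
          have h8 : J.det = -J.det := by
            have h9 := congrArg Matrix.det hT.cmp.Jt
            rw [Matrix.det_transpose, Matrix.det_neg, Fintype.card_fin] at h9
            have h10 : ((-1 : K)) ^ (e b).rank = -1 := by rw [hcard, pow_one]
            rwa [h10, neg_one_mul] at h9
          exact self_eq_neg.1 h8
        have h8 := hT.cmp.Jd
        rw [h7] at h8
        exact not_isUnit_zero h8
      · rfl
    · exfalso
      obtain ⟨c, A, h7, h8⟩ := C.partd b ha hroot hn hFF horth hsum hperm (by omega)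
      exact part b FF.card c A h5 h7 h8
  rcases alt with hb | ⟨c, T₀, N', hr⟩
  · refine full_of_one hT hY (hone hF1) (fun k hk => ?_) (fun k hk hk' => ?_) hX
    · rw [Fintype.card_fin]
      exact two b k hk
    · rw [Fintype.card_fin]
      exact hb b k hk hk'
  · exact Pool.Agent.H86K.core2_full C hr b hn ha hroot (hone hF1) (two b) hT hY hX

end Pool.Agent.H76Q
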