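import Pool.Agent.Lib.H76Q.Q6
import Pool.Agent.Lib.H86K.K12
import Pool.Agent.Lib.H76Q.A7

/-!
# seeds at p
-/

set_option autoImplicit false
set_option linter.unusedSectionVars false
namespace Pool.Agent.H76Q
open Module Matrix Polynomial Pool.Agent.H53Toric
open Pool.Agent.H76P
open Pool.Agent.H76T (IsIdeal Fam Lc)
open Pool.Agent.H76V (Cmp)
open Pool.Agent.H76U (cmp preL IsSplitting)
open Pool.Agent.H76RM (spanK similD)

variable {ι : Type*} [Fintype ι] [DecidableEq ι] {ψ : Matrix ι ι ℚ}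
    {D : Subalgebra ℚ (Matrix ι ι ℚ)} {M : Type} [Field M] [NumberField M]
    {m : ℕ} {e : Fin m → Matrix ι ι M} {G : Type*} [Group G]
    {ρ : ∀ (l : ℕ) [Fact l.Prime], G →* Matrix.GeneralLinearGroup ι ℚ_[l]}
    {p : ℕ} [Fact p.Prime] {σ : G} {q : ℚ} {f : ℚ[X]} {F : Fin m → M[X]}
    {φ μ ν : Matrix ι ι (AlgebraicClosure ℚ_[p])} {v : AlgebraicClosure ℚ_[p] → ℚ}
    {Δ : Set (AlgebraicClosure ℚ_[p] ≃+* AlgebraicClosure ℚ_[p])}
    {Ω : Type} [Field Ω] [CharZero Ω] [IsAlgClosed Ω] [Algebra.IsAlgebraic ℚ Ω] {j : M →+* Ω}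
    {R : Finset Ω} {N : Set ℕ} (C : Core2 ψ D e ρ p σ q f F φ μ ν v Δ j R N)

include C

omit C in
theorem w12r_ext {M Ω K : Type*} [Field M] [NumberField M] [Field Ω] [CharZero Ω]
    [Algebra.IsAlgebraic ℚ Ω] [Field K] [IsAlgClosed K] (j : M →+* Ω) (i₀ : M →+* K) :
    ∃ i : Ω →+* K, i.comp j = i₀ := by
  letI : Algebra M Ω := j.toAlgebra
  letI : Algebra M K := i₀.toAlgebra
  haveI : IsScalarTower ℚ M Ω := IsScalarTower.of_algebraMap_eq' (Subsingleton.elim _ _)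
  haveI : Algebra.IsAlgebraic M Ω := Algebra.IsAlgebraic.tower_top (K := ℚ) M
  refine ⟨(IsAlgClosed.lift (R := M) (S := Ω) (M := K)).toRingHom, ?_⟩
  ext x
  exact (IsAlgClosed.lift (R := M) (S := Ω) (M := K)).commutes x

/-- PROOF. Copy of `H76P.seed_p` (Lib/H76P/G12.lean).  Let `i : Ω →+* closure` be any embedding with `i ∘ j = i₀` (extension of `i₀ ∘ j⁻¹` to the algebraic extension `Ω` of `j M`, `IsAlgClosed.lift`).  `mk_loc`/`Core2.comp` give `U`, `V` and that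
`Lc J (img ..) U V` is full; then `fu_of_full`, `seed_of_fu` (with `h₀ = μ`, `C.crys.mu`) as there. -/
theorem Core2.seedR (part : ∀ b (k : ℕ) (c : Ω → Fin k) (A : Fin k → ℕ), 2 ≤ k →
      PartD D j (e b) (F b) q R c A → (e b).rank ≠ ∏ x, A x)
    (two : ∀ b (k : ℕ), 4 ≤ k → (e b).rank ≠ 2 ^ k)
    (alt : (∀ b (k : ℕ), 3 ≤ k → Odd k → (e b).rank ≠ k.centralBinom) ∨
      ∃ (c : Ω ≃+* Ω) (T₀ : Finset Ω) (N' : Set ℕ), Pool.Agent.H86K.Real ρ σ q F j c T₀ N')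
    (i₀ : M →+* AlgebraicClosure ℚ_[p])
    (H₀ : Subgroup G) (hfin : H₀.FiniteIndex)
    (hprime : (H76RM.van (img (AlgebraicClosure ℚ_[p]) (ρ p) H₀)).IsPrime) (b : Fin m) :
    H76RM.Seed (om (ψ.map (algebraMap ℚ (AlgebraicClosure ℚ_[p])))) (fun b => phi ((e b).map i₀))
        (lieE (ψ.map (algebraMap ℚ (AlgebraicClosure ℚ_[p])))
          (img (AlgebraicClosure ℚ_[p]) (ρ p) H₀)) b := by
  classical
  obtain ⟨i, rfl⟩ := w12r_ext j i₀
  obtain ⟨hJ, hdet⟩ := gram_basic C.hψ C.hψ0 (AlgebraicClosure ℚ_[p])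
  have hspl : IsSplitting D ψ id (fun c => (e c).map (i.comp j)) := C.hspl.map (i.comp j)
  have hspl4 := Pool.Agent.H76U.split4_of hspl
  have hι : Nonempty ι := by
    by_contra hemp
    rw [not_nonempty_iff] at hemp
    apply hspl.ne_zero b
    ext i'
    exact (hemp.false i').elim
  obtain ⟨φ', g⟩ := mk_phT (K := AlgebraicClosure ℚ_[p]) C.hψ C.hψ0 D (ρ p) (C.lin p) (C.sim p)
    (C.semis p) (C.commt p) (C.gen p) C.frobp hfin hprime
  obtain ⟨a, ha, hroot, hfull0⟩ := C.compR part two alt b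
  obtain ⟨U, V, hL⟩ := mk_loc C.hψ C.hψ0 D (ρ p) (C.lin p) (C.sim p) (C.semis p) (C.commt p)
    (C.gen p) C.hspl C.frobp C.multp hfin hprime j i b ha hroot (fun k l N hN h =>
      ha (C.tor b ((hroot _).2 ⟨k, rfl⟩) ((hroot _).2 ⟨l, rfl⟩) hN h))
  have hfull : ∀ {X : Module.End (AlgebraicClosure ℚ_[p]) (Fin (e b).rank → AlgebraicClosure ℚ_[p])},
      adjE (Uᵀ * ψ.map (algebraMap ℚ (AlgebraicClosure ℚ_[p])) * U) X = -X →
        X ∈ Lc (ψ.map (algebraMap ℚ (AlgebraicClosure ℚ_[p])))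
          (img (AlgebraicClosure ℚ_[p]) (ρ p) H₀) U V := fun {X} hX =>
    hfull0 (AlgebraicClosure ℚ_[p]) _ _ hL.ts hL.yo X hX
  have hh₀ := C.crys.mu
  refine Pool.Agent.H76T.seed_of_fu hJ hdet (g.sh.hz μ hh₀) (g.sh.hi μ hh₀) (g.sh.hs μ hh₀)
    (hspl.idem b) (hspl.adj b) (hspl.ne_zero b) ?_ ?_
  · exact (hL.par μ hh₀).2.1
  · intro u hu
    exact fu_of_full (b := b) hspl4 rfl hJ hdet hL.UV hL.VU g hL.pos hfull hu

end Pool.Agent.H76Q
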