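import Pool.Agent.Lib.H76Q.W13
import Pool.Agent.Lib.H86K.K13

/-!
# K14: the theorem, with the alternative for fields with a real place
-/

set_option autoImplicit false
set_option linter.unusedSectionVars false
namespace Pool.Agent.H76Q
open Module Matrix Polynomial Pool.Agent.H53Toric
open Pool.Agent.H76P
open Pool.Agent.H76T (IsIdeal Fam Lc)
open Pool.Agent.H76V (Cmp)
open Pool.Agent.H76U (cmp preL IsSplitting)
open Pool.Agent.H76RM (spanK similD)

variable {ι : Type*} [Fintype ι] [DecidableEq ι] {ψ : Matrix ι ι ℚ}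
    {D : Subalgebra ℚ (Matrix ι ι ℚ)} {M : Type} [Field M] [NumberField M]
    {m : ℕ} {e : Fin m → Matrix ι ι M} {G : Type*} [Group G]
    {ρ : ∀ (l : ℕ) [Fact l.Prime], G →* Matrix.GeneralLinearGroup ι ℚ_[l]}
    {p : ℕ} [Fact p.Prime] {σ : G} {q : ℚ} {f : ℚ[X]} {F : Fin m → M[X]}
    {φ μ ν : Matrix ι ι (AlgebraicClosure ℚ_[p])} {v : AlgebraicClosure ℚ_[p] → ℚ}
    {Δ : Set (AlgebraicClosure ℚ_[p] ≃+* AlgebraicClosure ℚ_[p])}
    {Ω : Type} [Field Ω] [CharZero Ω] [IsAlgClosed Ω] [Algebra.IsAlgebraic ℚ Ω] {j : M →+* Ω}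
    {R : Finset Ω} {N : Set ℕ} (C : Core2 ψ D e ρ p σ q f F φ μ ν v Δ j R N)

include C

/-- PROOF. Copy of `H76P.mono_p`, `lie_p` (G12), `at_p` (G15) and `finalP` (G16) with `Core2.seed` instead of `seed_p`. -/
theorem Core2.finalR (part : ∀ b (k : ℕ) (c : Ω → Fin k) (A : Fin k → ℕ), 2 ≤ k →
      PartD D j (e b) (F b) q R c A → (e b).rank ≠ ∏ x, A x)
    (two : ∀ b (k : ℕ), 4 ≤ k → (e b).rank ≠ 2 ^ k)
    (alt : (∀ b (k : ℕ), 3 ≤ k → Odd k → (e b).rank ≠ k.centralBinom) ∨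
      ∃ (c : Ω ≃+* Ω) (T₀ : Finset Ω) (N' : Set ℕ), Pool.Agent.H86K.Real ρ σ q F j c T₀ N') :
    ∀ (l : ℕ) [Fact l.Prime], ∀ H : Subgroup G, H.FiniteIndex →
      monodromy (AlgebraicClosure ℚ_[l]) (ρ l) H = similD (AlgebraicClosure ℚ_[l]) ψ D := by
  classical
  let i₀ : M →+* AlgebraicClosure ℚ_[p] := (IsAlgClosed.lift : M →ₐ[ℚ] AlgebraicClosure ℚ_[p])
  have hspl1 : IsSplitting D ψ id (fun b => (e b).map i₀) := C.hspl.map i₀
  have hrank1 : ∀ b, ((e b).map i₀).rank = (e b).rank := fun b =>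
    Pool.Agent.H76U.rank_idem_map (C.hspl.idem b) _
  rcases isEmpty_or_nonempty ι with hι | hι
  · intro l _ H hH
    ext x
    have hx : x = 1 := Subsingleton.elim _ _
    subst hx
    refine ⟨fun _ => ⟨by rw [Matrix.det_one]; exact one_ne_zero, fun d _ => by rw [one_mul, mul_one],
      1, Subsingleton.elim _ _⟩, fun _ => ⟨by rw [Matrix.det_one]; exact one_ne_zero, ?_⟩⟩
    exact Pool.Agent.H53Toric.subset_zar _ (img_one (ρ l) H)
  have hq0 : q ≠ 0 := by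
    intro h0
    have h1 := C.multp
    rw [h0, map_zero, zero_smul] at h1
    have h2 := congrArg Matrix.det h1
    rw [Matrix.det_mul, Matrix.det_mul, Matrix.det_transpose, Matrix.det_zero] at h2
    exact mul_ne_zero (mul_ne_zero C.frobp.idc.1
      (gram_basic C.hψ C.hψ0 (AlgebraicClosure ℚ_[p])).2.ne_zero) C.frobp.idc.1 h2
  obtain ⟨hmon, hind, hcard⟩ := w13_at C.hψ C.hψ0 D (ρ p) (C.lin p) (C.sim p) C.cyc (C.semis p)
    (C.commt p) hspl1 (fun H₀ hfin hprime b => C.seedR part two alt i₀ H₀ hfin hprime b)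
    C.frobp.idc C.frobp.dgb C.frobp.torus hq0 C.multp C.charp
  intro l _ H hH
  by_cases hlp : l = p
  · subst hlp
    exact hmon H hH
  let j' : M →+* AlgebraicClosure ℚ_[l] := (IsAlgClosed.lift : M →ₐ[ℚ] AlgebraicClosure ℚ_[l])
  have hspl2 : IsSplitting D ψ id (fun b => (e b).map j') := C.hspl.map j'
  refine Pool.Agent.H76T.full_other C.hψ C.hψ0 D (ρ l) (C.lin l) (C.sim l) (C.semis l) (C.commt l)
    hspl2 hq0 C.hq (C.mult l hlp) (C.char l hlp) (C.frob l hlp).dgb hind ?_ H hH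
  rw [hcard]
  exact Finset.sum_congr rfl fun b _ => by
    rw [hrank1, Pool.Agent.H76U.rank_idem_map (C.hspl.idem b)]

end Pool.Agent.H76Q
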