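import Pool.Agent.Lib.H49M.R3

/-!
# K1: a frame for a given involution
-/

set_option autoImplicit false
set_option linter.unusedSectionVars false
namespace Pool.Agent.H86K
open Module Polynomial Pool.Agent.H53Toric Pool.Agent.H49M

variable {K : Type*} [Field K] {V : Type*} [AddCommGroup V] [Module K V]

variable {L : Submodule K (Module.End K V)} {ω : V →ₗ[K] V →ₗ[K] K}
  {adj : Module.End K V →ₗ[K] Module.End K V}

/-- An extremal element of weight one for the given involution. -/
theorem ext_aux [IsAlgClosed K] [CharZero K] [FiniteDimensional K V] [Nontrivial V]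
    {g : Submodule K (Module.End K V)} (hg : IsLie g) (hirr : Irr g)
    (htr : ∀ X ∈ g, LinearMap.trace K V X = 0) (s : Module.End K V) (n : ℕ) :
    ∀ N ∈ Lp g s, N * N = 0 → finrank K (LinearMap.range N) = n → N ≠ 0 →
    ∃ N' ∈ Lp g s, N' * N' = 0 ∧ N' ≠ 0 ∧
      ∀ X ∈ g, ∃ c : K, N' * X * N' = c • N' := by
  induction n using Nat.strong_induction_on with
  | _ n ih =>
  intro N hNp hN2 hrk hN0
  have hN : N ∈ g := hNp.1
  obtain ⟨M, hM, hNMN⟩ := exists_partner hg hirr htr hN hN2
  have hee : (N * M) * (N * M) = N * M := by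
    calc (N * M) * (N * M) = (N * M * N) * M := by noncomm_ring
      _ = N * M := by rw [hNMN]
  have heJ : N * M ∈ JJ g N (N * M) := ⟨hee, hee, by rw [hNMN]; exact hN⟩
  have he0 : N * M ≠ 0 := by
    intro h
    rw [h, zero_mul] at hNMN
    exact hN0 hNMN.symm
  have hrkN : finrank K (LinearMap.range (N * M)) = n := by
    rw [← hrk]
    exact rank_eq_of_dvd (a := N * M) (b := N) rfl hNMN.symm
  by_cases hf : ∃ f ∈ JJ g N (N * M), f * f = f ∧ f ≠ 0 ∧ f ≠ N * M
  · obtain ⟨f, hfJ, hff, hf0, hfe⟩ := hf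
    -- both parts
    have hpart : ∀ f ∈ JJ g N (N * M), f * f = f →
        (f * N) * (f * N) = 0 ∧ (finrank K (LinearMap.range (f * N)) : K) =
          LinearMap.trace K V f := by
      intro f hfJ hff
      refine ⟨?_, ?_⟩
      · calc (f * N) * (f * N) = f * (N * f) * N := by noncomm_ring
          _ = 0 := by rw [JJ_N_mul hN2 hfJ, mul_zero, zero_mul]
      · rw [trace_idem hff]
        congr 1
        apply rank_eq_of_dvd (c := N) (d := M) rfl
        rw [mul_assoc, hfJ.2.1]
    have hf'J : N * M - f ∈ JJ g N (N * M) := (JJ g N (N * M)).sub_mem heJ hfJ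
    have hff' : (N * M - f) * (N * M - f) = N * M - f := by
      have : (N * M - f) * (N * M - f) = (N * M) * (N * M) - (N * M) * f - f * (N * M) + f * f := by
        noncomm_ring
      rw [this, hee, hfJ.1, hfJ.2.1, hff]
      abel
    obtain ⟨h1, h2⟩ := hpart f hfJ hff
    obtain ⟨h3, h4⟩ := hpart _ hf'J hff'
    have hsum : (finrank K (LinearMap.range (f * N)) : K) +
        (finrank K (LinearMap.range ((N * M - f) * N)) : K) = (n : K) := by
      rw [h2, h4, ← map_add, add_sub_cancel, trace_idem hee, hrkN]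
    have hsum' : finrank K (LinearMap.range (f * N)) +
        finrank K (LinearMap.range ((N * M - f) * N)) = n := by
      exact_mod_cast hsum
    have hne : ∀ f ∈ JJ g N (N * M), f ≠ 0 → 0 < finrank K (LinearMap.range (f * N)) := by
      intro f hfJ hf0
      rw [Nat.pos_iff_ne_zero]
      intro h
      have h0 := LinearMap.range_eq_bot.1 (Submodule.finrank_eq_zero.1 h)
      apply hf0
      rw [← hfJ.2.1, ← mul_assoc, h0, zero_mul]
    have hp1 := hne f hfJ hf0
    have hp2 := hne _ hf'J (by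
      intro h
      exact hfe (sub_eq_zero.1 h).symm)
    have hfN : f * N ≠ 0 := by
      intro h0
      rw [h0, LinearMap.range_zero, finrank_bot] at hp1
      exact lt_irrefl 0 hp1
    have hsf : s * f = f := by
      rw [← hfJ.1, ← mul_assoc, ← mul_assoc, hNp.2.1]
    exact ih _ (by omega) _ ⟨hfJ.2.2, by rw [← mul_assoc, hsf], by rw [mul_assoc, hNp.2.2, mul_neg]⟩ h1 rfl hfN
  · -- extremal case
    refine ⟨N, hNp, hN2, hN0, ?_⟩
    have hall : ∀ a ∈ JJ g N (N * M), ∃ t : K, IsNilpotent (a - t • (N * M)) := by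
      intro a ha
      -- an eigenvalue on the range of e
      let W : Submodule K V := LinearMap.range (N * M)
      have hW : W ≠ ⊥ := by
        intro h
        exact he0 (LinearMap.range_eq_bot.1 h)
      have haW : ∀ x ∈ W, a x ∈ W := by
        intro x _
        refine ⟨a x, ?_⟩
        change (N * M * a) x = a x
        rw [ha.1]
      have : Nontrivial W := Submodule.nontrivial_iff_ne_bot.2 hW
      obtain ⟨t, ht⟩ := Module.End.exists_eigenvalue (a.restrict haW)
      obtain ⟨u, hu⟩ := ht.exists_hasEigenvector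
      have hu1 : a u.1 = t • u.1 := by
        have := hu.apply_eq_smul
        exact congrArg Subtype.val this
      have hu0 : u.1 ≠ 0 := by
        intro h
        exact hu.2 (Subtype.ext h)
      have heu : (N * M) u.1 = u.1 := by
        obtain ⟨v, hv⟩ := u.2
        rw [← hv]
        change (N * M * (N * M)) v = (N * M) v
        rw [hee]
      refine ⟨t, ?_⟩
      by_contra hnn
      have hb : a - t • (N * M) ∈ JJ g N (N * M) :=
        (JJ g N (N * M)).sub_mem ha ((JJ g N (N * M)).smul_mem t heJ)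
      set b := a - t • (N * M) with hbdef
      have hbu : b u.1 = 0 := by
        rw [hbdef, LinearMap.sub_apply, LinearMap.smul_apply, heu, hu1, sub_self]
      obtain ⟨p, k, hp1, hp2⟩ := fitting b
      apply hf
      refine ⟨aeval b (X * p), JJ_aeval hg hM hN2 hb p, hp1, ?_, ?_⟩
      · intro h
        apply hnn
        refine ⟨k, ?_⟩
        rw [← hp2, h, mul_zero]
      · intro h
        have h1 : (aeval b (X * p)) u.1 = 0 := by
          rw [mul_comm, map_mul, aeval_X]
          change (aeval b p) (b u.1) = 0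
          rw [hbu, map_zero]
        rw [h, heu] at h1
        exact hu0 h1
    intro X hX
    obtain ⟨t, ht⟩ := JJ_scalar hirr htr hN0 hg hN hM hN2 hNMN hall _
      (JJ_of_mem hg hN hN2 hNMN hX)
    refine ⟨t, ?_⟩
    calc N * X * N = N * X * (N * M * N) := by rw [hNMN]
      _ = (N * X * N * M) * N := by noncomm_ring
      _ = t • N := by rw [ht, smul_mul_assoc, hNMN]

/-- A frame for the given involution. -/
theorem frame_at [IsAlgClosed K] [CharZero K] [FiniteDimensional K V] [Nontrivial V]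
    (h : Core L ω adj) {y : Module.End K V} (hyg : y ∈ L) (hy2 : y * y = 1) :
    ∃ e f : Module.End K V, Frame L y e f := by
  have hS := A1_setup h hyg hy2
  obtain ⟨N₀, hN₀, hN₀0⟩ := Submodule.exists_mem_ne_zero_of_ne_bot (A2_ne h hyg hy2)
  obtain ⟨N₁, hN₁p, hN₁2, hN₁0, hext₁⟩ := ext_aux h.lie h.irr hS.tr y _ N₀ hN₀ (A2_pp hN₀ hN₀) rfl hN₀0
  have hN₁g := hN₁p.1
  have hyN := hN₁p.2.1
  have hNy' := hN₁p.2.2
  obtain ⟨X, hX, hNX⟩ := exists_partner h.lie h.irr hS.tr hN₁g hN₁2
  set M₁ := (1 / 4 : K) • ((1 - y) * X * (1 + y)) with hM₁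
  have hM₁g : M₁ ∈ L := L.smul_mem _ (h.lie.minus hyg hy2 hX)
  have hyM : y * M₁ = -M₁ := by
    rw [hM₁, mul_smul_comm, ← smul_neg]
    congr 1
    calc y * ((1 - y) * X * (1 + y)) = (y - y * y) * X * (1 + y) := by noncomm_ring
      _ = _ := by rw [hy2]; noncomm_ring
  have hMy : M₁ * y = M₁ := by
    rw [hM₁, smul_mul_assoc]
    congr 1
    calc (1 - y) * X * (1 + y) * y = (1 - y) * X * (y + y * y) := by noncomm_ring
      _ = _ := by rw [hy2, add_comm]
  have hM₁2 : M₁ * M₁ = 0 := by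
    have h1 : M₁ * (y * M₁) = M₁ * M₁ := by rw [← mul_assoc, hMy]
    rw [hyM, mul_neg] at h1
    have h2 : (2 : K) • (M₁ * M₁) = 0 := by
      rw [two_smul]
      nth_rw 1 [← h1]
      simp
    exact (smul_eq_zero.1 h2).resolve_left (by norm_num)
  have hNMN : N₁ * M₁ * N₁ = N₁ := by
    have h1 : N₁ * (1 - y) = (2 : K) • N₁ := by
      rw [mul_sub, hNy', mul_one, two_smul]; abel
    have h2 : (1 + y) * N₁ = (2 : K) • N₁ := by
      rw [add_mul, hyN, one_mul, two_smul]
    calc N₁ * M₁ * N₁ = (1 / 4 : K) • ((N₁ * (1 - y)) * X * ((1 + y) * N₁)) := by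
          rw [hM₁, mul_smul_comm, smul_mul_assoc]; congr 1
      _ = N₁ := by
          rw [h1, h2, smul_mul_assoc, smul_mul_assoc, mul_smul_comm, smul_smul, smul_smul, hNX]
          norm_num
  refine ⟨N₁, M₁ * N₁ * M₁, hyg, hy2, hN₁p, ⟨h.lie.sandwich hM₁g hM₁2 hN₁g, ?_, ?_⟩, hN₁0, ?_, ?_, hext₁⟩
  · rw [← mul_assoc, ← mul_assoc, hyM]; noncomm_ring
  · rw [mul_assoc, hMy]
  · calc N₁ * (M₁ * N₁ * M₁) * N₁ = (N₁ * M₁ * N₁) * M₁ * N₁ := by noncomm_ring
      _ = N₁ := by rw [hNMN, hNMN]
  · calc M₁ * N₁ * M₁ * N₁ * (M₁ * N₁ * M₁) = M₁ * ((N₁ * M₁ * N₁) * M₁ * N₁) * M₁ := by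
          noncomm_ring
      _ = _ := by rw [hNMN, hNMN]

/-- The binomial case, for the given involution. -/
theorem alpha_at [IsAlgClosed K] [CharZero K] [FiniteDimensional K V] [Nontrivial V]
    (h : Core L ω adj) {s : Module.End K V} (hs : s ∈ L) (hs2 : s * s = 1)
    (hnot : ¬ ∀ X : Module.End K V, adj X = -X → X ∈ L) (hpow : ∀ m : ℕ, finrank K V ≠ 2 ^ m) :
    ∃ e f : Module.End K V, Frame L s e f ∧
      (∀ x ∈ Lp L s, ∀ y ∈ Lm L s, ∃ c : K, x * y * x = c • x ∧ y * x * y = c • y) ∧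
      2 ≤ finrank K (Lm L s) := by
  obtain ⟨e, f, F⟩ := frame_at h hs hs2
  have hset := A1_setup h hs hs2
  have hee : e * e = 0 := A2_pp F.e_mem F.e_mem
  have hr1 : finrank K (LinearMap.range e) ≠ 1 := by
    intro hr
    apply hnot
    intro X hX
    exact Setup.full hset F.e_mem.1 hee (by rw [hr]; decide) hX
  have ha : ∀ u ∈ J1 L s e f, u * f * u = 0 := by
    by_contra ha
    push Not at ha
    obtain ⟨u, hu, hu0⟩ := ha
    obtain ⟨e', f', G⟩ := P1_grid h F hu hu0
    rcases P5_dich h G with h1 | h1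
    · exact absurd (P6_one h G h1) hr1
    · obtain ⟨t, ht, ht2⟩ := P8_powS h G h1
      have h5 := (K5_eig h G.F.s_mem G.F.s_sq).2
      have h6 : finrank K V = 2 ^ (t + 1) := by rw [h5, ht, pow_succ]; ring
      exact hpow _ h6
  have hall := fun (x : Module.End K V) (hx : x ∈ Lp L s) (y : Module.End K V)
    (hy : y ∈ Lm L s) => K2_all h F ha hx hy
  refine ⟨e, f, F, hall, ?_⟩
  -- the dimension of the part of weight `-1`
  obtain ⟨n, x, y, hK, hx, hy, hxL, hyL⟩ := R2_system h F hall
  obtain ⟨k, hk1, hk2, h1, h2, h3, hcnt⟩ := R2_rank hK (by rw [hx]; exact F.e_ne)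
  obtain ⟨-, h5⟩ := K5_eig h F.s_mem F.s_sq
  have hn : n ≠ 0 := by
    rintro rfl
    have hk : k = 1 := by omega
    rw [hk, Nat.choose_self] at h1
    rw [h1, mul_one] at h5
    exact hpow 1 (by rw [h5, pow_one])
  obtain ⟨n', rfl⟩ := Nat.exists_eq_succ_of_ne_zero hn
  have h01 : (0 : Fin (n' + 1 + 1)) ≠ 1 := by
    intro e
    exact absurd (congrArg Fin.val e) (by norm_num)
  have hf0 : f ≠ 0 := by
    rintro rfl
    have h6 := F.efe
    rw [mul_zero, zero_mul] at h6
    exact F.e_ne h6.symm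
  -- `y 0` and `y 1` are independent
  have hind : ∀ c : K, y 1 ≠ c • y 0 := by
    intro c hc
    have e1 := hK.r2 1 0 1
    rw [if_neg (Ne.symm h01), add_zero] at e1
    have e0 := hK.r2 0 0 0
    rw [if_pos rfl] at e0
    rw [hc] at e1
    have e2 : (c * c) • (y 0 * x 0 * y 0 + y 0 * x 0 * y 0) = 0 := by
      rw [← e1, smul_add]
      simp only [smul_mul_assoc, mul_smul_comm, smul_smul]
    rw [e0, smul_eq_zero] at e2
    have e3 : c = 0 := by
      rcases e2 with e2 | e2
      · exact mul_self_eq_zero.1 e2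
      · exfalso
        apply hf0
        rw [← hy]
        have e4 : (2 : K) • y 0 = 0 := by rw [two_smul]; exact e2
        exact (smul_eq_zero.1 e4).resolve_left (by norm_num)
    rw [e3, zero_smul] at hc
    have e5 := hK.r1 0 1 1
    rw [if_neg h01, if_pos rfl, hc, mul_zero, zero_mul, mul_zero, zero_mul, zero_add, zero_add] at e5
    exact F.e_ne (by rw [← hx, ← e5])
  by_contra hlt
  push Not at hlt
  have hfin : finrank K (Lm L s) ≤ 1 := by omega
  obtain ⟨v, hv⟩ := finrank_le_one_iff.1 hfin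
  obtain ⟨c0, hc0⟩ := hv ⟨y 0, hyL 0⟩
  obtain ⟨c1, hc1⟩ := hv ⟨y 1, hyL 1⟩
  have hc0' : c0 • (v : Module.End K V) = y 0 := congrArg Subtype.val hc0
  have hc1' : c1 • (v : Module.End K V) = y 1 := congrArg Subtype.val hc1
  have hc0n : c0 ≠ 0 := by
    rintro rfl
    apply hf0
    rw [← hy, ← hc0', zero_smul]
  apply hind (c1 * c0⁻¹)
  rw [← hc0', smul_smul, mul_assoc, inv_mul_cancel₀ hc0n, mul_one, hc1']

end Pool.Agent.H86K
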