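import Pool.Agent.Lib.H86K.K10
import Mathlib.Analysis.Complex.Polynomial.Basic

/-!
# K11: number fields with a real place
-/

set_option autoImplicit false
set_option linter.unusedSectionVars false
namespace Pool.Agent.H86K
open Module Matrix Polynomial Pool.Agent.H53Toric Pool.Agent.H76P Pool.Agent.H76Q

/-- A homomorphism whose values are in the range of an injective homomorphism factors. -/
theorem exists_factor {A B C : Type*} [Ring A] [Ring B] [Ring C] (f : A →+* C) (g : B →+* C)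
    (hg : Function.Injective g) (h : ∀ x, ∃ y, f x = g y) : Nonempty (A →+* B) := by
  choose s hs using h
  exact ⟨{ toFun := s
           map_one' := hg (by rw [← hs, map_one, map_one])
           map_mul' := fun x y => hg (by rw [← hs, map_mul, map_mul, ← hs, ← hs])
           map_zero' := hg (by rw [← hs, map_zero, map_zero])
           map_add' := fun x y => hg (by rw [← hs, map_add, map_add, ← hs, ← hs]) }⟩

theorem real_of {F M Ω : Type} [Field F] [NumberField F] [Field M] [Field Ω] [CharZero Ω] [Algebra F Ω]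
    [IsAlgClosure F Ω] (j : M →+* Ω) (hM : ∀ (τ : M →+* ℂ) (x : M), (starRingEnd ℂ) (τ x) = τ x)
    (τ₀ : F →+* ℝ) {ι : Type*} [Fintype ι] [DecidableEq ι] {G : Type*} [Group G]
    (ρ : ∀ (l : ℕ) [Fact l.Prime], G →* Matrix.GeneralLinearGroup ι ℚ_[l]) (σ : G) (p : ℕ)
    {m : ℕ} (χ : Fin m → M[X]) (f : ℤ[X]) (weil : ∀ z : ℂ, aeval z f = 0 → ‖z‖ ^ 2 = p)
    (hroot : ∀ b, ∀ a : Ω, (χ b).eval₂ j a = 0 → aeval a f = 0) (N : Set ℕ) (hN : N.Finite)
    (ht : ∀ (l : ℕ) [Fact l.Prime], l ∉ N → Nonempty (F →+* ℚ_[l]) →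
      ∃ h ∈ properProj (AlgebraicClosure ℚ_[l]) (ρ l),
        h * (ρ l σ).1.map (algebraMap ℚ_[l] (AlgebraicClosure ℚ_[l])) =
          (ρ l σ).1.map (algebraMap ℚ_[l] (AlgebraicClosure ℚ_[l])) * h ∧
        ∀ t : AlgebraicClosure ℚ_[l] ≃ₐ[ℚ_[l]] AlgebraicClosure ℚ_[l],
          ∃ g g' : Matrix ι ι (AlgebraicClosure ℚ_[l]), g ∈ tgen (AlgebraicClosure ℚ_[l]) (ρ l) ∧ g * g' = 1 ∧
            h.map t = g * h * g') :
    ∃ (c : Ω ≃+* Ω) (T₀ : Finset Ω), Real ρ σ (p : ℚ) χ j c T₀ N := by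
  classical
  have hcl : IsAlgClosed Ω := IsAlgClosure.isAlgClosed F
  have halgF : Algebra.IsAlgebraic F Ω := IsAlgClosure.isAlgebraic
  have halg : Algebra.IsAlgebraic ℚ Ω := Algebra.IsAlgebraic.trans ℚ F Ω
  letI : Algebra F ℂ := (Complex.ofRealHom.comp τ₀).toAlgebra
  let κ : Ω →ₐ[F] ℂ := IsAlgClosed.lift
  obtain ⟨c, hc⟩ := exists_res (Ω := Ω) (κ : Ω →+* ℂ) (starRingAut : ℂ ≃+* ℂ)
  have hc' : ∀ y, κ (c y) = (starRingEnd ℂ) (κ y) := fun y => (hc y).symm
  have hinj : Function.Injective κ := κ.toRingHom.injective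
  set bas := Module.finBasis ℚ F with hbas
  refine ⟨c, Finset.univ.image fun k => algebraMap F Ω (bas k), ?_, ?_, ?_, ?_, hN, ?_⟩
  · intro x
    apply hinj
    rw [hc', hc', Complex.conj_conj]
  · intro x
    apply hinj
    rw [hc']
    exact hM ((κ : Ω →+* ℂ).comp j) x
  · intro x hx
    obtain ⟨k, -, rfl⟩ := Finset.mem_image.1 hx
    apply hinj
    rw [hc', κ.commutes]
    show (starRingEnd ℂ) ((τ₀ (bas k) : ℝ) : ℂ) = ((τ₀ (bas k) : ℝ) : ℂ)
    exact Complex.conj_ofReal _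
  · intro b y hy
    apply hinj
    have h1 : aeval (κ y) f = 0 := by
      have h2 := hroot b y hy
      have h3 : aeval (κ y) f = κ (aeval y f) := by
        rw [aeval_def, aeval_def]
        have h4 : (algebraMap ℤ ℂ) = (κ : Ω →+* ℂ).comp (algebraMap ℤ Ω) := RingHom.ext_int _ _
        rw [h4]
        exact (hom_eval₂ f (algebraMap ℤ Ω) (κ : Ω →+* ℂ) y).symm
      rw [h3, h2, map_zero]
    rw [map_mul, hc', Complex.mul_conj]
    have h5 := weil _ h1
    rw [Complex.normSq_eq_norm_sq, h5]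
    rw [eq_ratCast, map_ratCast]
    push_cast
    rfl
  · intro l _ hl i hi
    refine ht l hl (exists_factor (i.comp (algebraMap F Ω)) (algebraMap ℚ_[l] (AlgebraicClosure ℚ_[l]))
      (algebraMap ℚ_[l] (AlgebraicClosure ℚ_[l])).injective fun x => ?_)
    have h1 : ∀ k, ∃ y : ℚ_[l], i (algebraMap F Ω (bas k)) = algebraMap ℚ_[l] (AlgebraicClosure ℚ_[l]) y :=
      fun k => hi _ (Finset.mem_image_of_mem _ (Finset.mem_univ k))
    choose y hy using h1
    refine ⟨∑ k, ((bas.repr x k : ℚ) : ℚ_[l]) * y k, ?_⟩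
    have h2 : x = ∑ k, (bas.repr x k : ℚ) • bas k := (bas.sum_repr x).symm
    rw [RingHom.comp_apply]
    conv_lhs => rw [h2]
    rw [map_sum, map_sum, map_sum]
    refine Finset.sum_congr rfl fun k _ => ?_
    rw [Rat.smul_def, map_mul, map_mul, map_mul, hy, map_ratCast, map_ratCast, map_ratCast]

end Pool.Agent.H86K
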