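import Pool.Agent.Lib.H86K.K1

/-!
# K2: the representation on `K × L₋`
-/

set_option autoImplicit false
set_option linter.unusedSectionVars false
namespace Pool.Agent.H86K
open Module Pool.Agent.H53Toric Pool.Agent.H49M

variable {K : Type*} [Field K] {V : Type*} [AddCommGroup V] [Module K V]

variable {L : Submodule K (Module.End K V)} {s : Module.End K V}

theorem br0m (hl : IsLie L) {Z y : Module.End K V} (hZ : Z ∈ L0 L s) (hy : y ∈ Lm L s) :
    Z * y - y * Z ∈ Lm L s := by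
  refine ⟨hl _ hZ.1 _ hy.1, ?_, ?_⟩
  · rw [mul_sub, ← mul_assoc, hZ.2, mul_assoc, hy.2.1, ← mul_assoc, hy.2.1]
    noncomm_ring
  · rw [sub_mul, mul_assoc, hy.2.2, mul_assoc, ← hZ.2, ← mul_assoc, hy.2.2]

theorem br0p (hl : IsLie L) {Z x : Module.End K V} (hZ : Z ∈ L0 L s) (hx : x ∈ Lp L s) :
    Z * x - x * Z ∈ Lp L s := by
  refine ⟨hl _ hZ.1 _ hx.1, ?_, ?_⟩
  · rw [mul_sub, ← mul_assoc, hZ.2, mul_assoc, hx.2.1, ← mul_assoc, hx.2.1]
  · rw [sub_mul, mul_assoc, hx.2.2, mul_assoc, ← hZ.2, ← mul_assoc, hx.2.2]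
    noncomm_ring

theorem brpm (hl : IsLie L) {x y : Module.End K V} (hx : x ∈ Lp L s) (hy : y ∈ Lm L s) :
    x * y - y * x ∈ L0 L s := by
  refine ⟨hl _ hx.1 _ hy.1, ?_⟩
  rw [mul_sub, sub_mul, ← mul_assoc, hx.2.1, ← mul_assoc, hy.2.1, mul_assoc, hy.2.2, mul_assoc, hx.2.2]
  noncomm_ring

theorem br00 (hl : IsLie L) {Z Z' : Module.End K V} (hZ : Z ∈ L0 L s) (hZ' : Z' ∈ L0 L s) :
    Z * Z' - Z' * Z ∈ L0 L s := by
  refine ⟨hl _ hZ.1 _ hZ'.1, ?_⟩
  have h1 : s * (Z * Z') = Z * Z' * s := by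
    rw [← mul_assoc, hZ.2, mul_assoc, hZ'.2, ← mul_assoc]
  have h2 : s * (Z' * Z) = Z' * Z * s := by
    rw [← mul_assoc, hZ'.2, mul_assoc, hZ.2, ← mul_assoc]
  rw [mul_sub, sub_mul, h1, h2]

/-- The action of the part of weight zero. -/
def adQ (hl : IsLie L) (s : Module.End K V) : L0 L s →ₗ[K] Module.End K (Lm L s) where
  toFun Z :=
    { toFun := fun y => ⟨Z.1 * y.1 - y.1 * Z.1, br0m hl Z.2 y.2⟩
      map_add' := fun a b => Subtype.ext (by
        show Z.1 * (a.1 + b.1) - (a.1 + b.1) * Z.1 = (Z.1 * a.1 - a.1 * Z.1) + (Z.1 * b.1 - b.1 * Z.1)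
        rw [mul_add, add_mul]; abel)
      map_smul' := fun c a => Subtype.ext (by
        show Z.1 * (c • a.1) - (c • a.1) * Z.1 = c • (Z.1 * a.1 - a.1 * Z.1)
        rw [mul_smul_comm, smul_mul_assoc, smul_sub]) }
  map_add' Z Z' := LinearMap.ext fun a => Subtype.ext (by
    show (Z.1 + Z'.1) * a.1 - a.1 * (Z.1 + Z'.1) = (Z.1 * a.1 - a.1 * Z.1) + (Z'.1 * a.1 - a.1 * Z'.1)
    rw [mul_add, add_mul]; abel)
  map_smul' c Z := LinearMap.ext fun a => Subtype.ext (by
    show (c • Z.1) * a.1 - a.1 * (c • Z.1) = c • (Z.1 * a.1 - a.1 * Z.1)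
    rw [mul_smul_comm, smul_mul_assoc, smul_sub])

theorem adQ_apply (hl : IsLie L) (Z : L0 L s) (y : Lm L s) :
    ((adQ hl s Z y : Lm L s) : Module.End K V) = Z.1 * y.1 - y.1 * Z.1 := rfl

/-- The character of the part of weight zero. -/
noncomputable def lam (hl : IsLie L) (s : Module.End K V) : L0 L s →ₗ[K] K :=
  (-((finrank K (Lm L s) : K) + 1)⁻¹) • (LinearMap.trace K (Lm L s) ∘ₗ adQ hl s)

/-- The pairing. -/
noncomputable def bet (L : Submodule K (Module.End K V)) (s : Module.End K V) (r : K) :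
    Lp L s →ₗ[K] Lm L s →ₗ[K] K :=
  LinearMap.mk₂ K (fun x y => r⁻¹ * LinearMap.trace K V (x.1 * y.1))
    (fun x x' y => by
      show r⁻¹ * LinearMap.trace K V ((x.1 + x'.1) * y.1) = _
      rw [add_mul, map_add, mul_add])
    (fun c x y => by
      show r⁻¹ * LinearMap.trace K V ((c • x.1) * y.1) = _
      rw [smul_mul_assoc, map_smul, smul_eq_mul, smul_eq_mul]; ring)
    (fun x y y' => by
      show r⁻¹ * LinearMap.trace K V (x.1 * (y.1 + y'.1)) = _
      rw [mul_add, map_add, mul_add])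
    (fun c x y => by
      show r⁻¹ * LinearMap.trace K V (x.1 * (c • y.1)) = _
      rw [mul_smul_comm, map_smul, smul_eq_mul, smul_eq_mul]; ring)

theorem bet_apply (r : K) (x : Lp L s) (y : Lm L s) :
    bet L s r x y = r⁻¹ * LinearMap.trace K V (x.1 * y.1) := rfl

/-- Operators of weight one. -/
noncomputable def opE (L : Submodule K (Module.End K V)) (s : Module.End K V) (r : K) :
    Lp L s →ₗ[K] Module.End K (K × Lm L s) where
  toFun u := (LinearMap.inl K K (Lm L s)) ∘ₗ (bet L s r u) ∘ₗ (LinearMap.snd K K (Lm L s))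
  map_add' u u' := by
    rw [map_add, LinearMap.add_comp, LinearMap.comp_add]
  map_smul' c u := by
    rw [map_smul, LinearMap.smul_comp, LinearMap.comp_smul]
    rfl

/-- Operators of weight minus one. -/
noncomputable def opF (L : Submodule K (Module.End K V)) (s : Module.End K V) :
    Lm L s →ₗ[K] Module.End K (K × Lm L s) where
  toFun v := (LinearMap.inr K K (Lm L s)) ∘ₗ (LinearMap.toSpanSingleton K (Lm L s) v) ∘ₗ (LinearMap.fst K K (Lm L s))
  map_add' v v' := by
    refine LinearMap.ext fun z => ?_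
    refine Prod.ext ?_ ?_
    · simp
    · simp [smul_add]
  map_smul' c v := by
    refine LinearMap.ext fun z => ?_
    refine Prod.ext ?_ ?_
    · simp
    · simp [smul_smul, mul_comm]

/-- Operators of weight zero. -/
noncomputable def opD (hl : IsLie L) (s : Module.End K V) :
    L0 L s →ₗ[K] Module.End K (K × Lm L s) where
  toFun Z := (LinearMap.inr K K (Lm L s)) ∘ₗ (adQ hl s Z) ∘ₗ (LinearMap.snd K K (Lm L s)) + lam hl s Z • 1
  map_add' Z Z' := by
    rw [map_add, map_add, add_smul, LinearMap.add_comp, LinearMap.comp_add]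
    abel
  map_smul' c Z := by
    rw [map_smul, map_smul, LinearMap.smul_comp, LinearMap.comp_smul, RingHom.id_apply, smul_add, smul_smul]
    rfl

theorem opE_apply (r : K) (u : Lp L s) (z : K × Lm L s) : opE L s r u z = (bet L s r u z.2, 0) := rfl

theorem opF_apply (v : Lm L s) (z : K × Lm L s) : opF L s v z = (0, z.1 • v) := rfl

theorem opD_apply (hl : IsLie L) (Z : L0 L s) (z : K × Lm L s) :
    opD hl s Z z = (lam hl s Z * z.1, adQ hl s Z z.2 + lam hl s Z • z.2) := by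
  show (0, adQ hl s Z z.2) + lam hl s Z • z = _
  refine Prod.ext ?_ ?_
  · show (0 : K) + lam hl s Z • z.1 = _
    rw [zero_add, smul_eq_mul]
  · rfl

end Pool.Agent.H86K
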