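import Pool.Agent.Lib.H86K.K2

/-!
# K3: the representation, commutation relations
-/

set_option autoImplicit false
set_option linter.unusedSectionVars false
namespace Pool.Agent.H86K
open Module Pool.Agent.H53Toric Pool.Agent.H49M

variable {K : Type*} [Field K] [CharZero K] {V : Type*} [AddCommGroup V] [Module K V] [FiniteDimensional K V]

variable {L : Submodule K (Module.End K V)} {s : Module.End K V} {r : K}

/-- The binomial case. -/
structure AH (L : Submodule K (Module.End K V)) (s : Module.End K V) (r : K) : Prop where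
  lie : IsLie L
  s_mem : s ∈ L
  s_sq : s * s = 1
  quad1 : ∀ (x : Lp L s) (y : Lm L s), x.1 * y.1 * x.1 = bet L s r x y • x.1
  quad2 : ∀ (x : Lp L s) (y : Lm L s), y.1 * x.1 * y.1 = bet L s r x y • y.1

theorem AH.lin2 (h : AH L s r) (x : Lp L s) (y y' : Lm L s) :
    y.1 * x.1 * y'.1 + y'.1 * x.1 * y.1 = bet L s r x y • y'.1 + bet L s r x y' • y.1 := by
  have h1 := h.quad2 x (y + y')
  have h2 := h.quad2 x y
  have h3 := h.quad2 x y'
  rw [map_add] at h1
  have h4 : (y + y' : Lm L s).1 = y.1 + y'.1 := rfl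
  rw [h4] at h1
  have h5 : (y.1 + y'.1) * x.1 * (y.1 + y'.1) = y.1 * x.1 * y.1 + (y.1 * x.1 * y'.1 + y'.1 * x.1 * y.1) +
      y'.1 * x.1 * y'.1 := by noncomm_ring
  rw [h5, h2, h3, add_smul, smul_add, smul_add] at h1
  have h6 : bet L s r x y • y.1 + (y.1 * x.1 * y'.1 + y'.1 * x.1 * y.1) + bet L s r x y' • y'.1 =
      bet L s r x y • y.1 + (bet L s r x y • y'.1 + bet L s r x y' • y.1) + bet L s r x y' • y'.1 := by
    rw [h1]; abel
  exact add_left_cancel (add_right_cancel h6)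

/-- The bracket of weight one and weight minus one. -/
def brE (h : IsLie L) (x : Lp L s) (y : Lm L s) : L0 L s := ⟨x.1 * y.1 - y.1 * x.1, brpm h x.2 y.2⟩

theorem AH.act (h : AH L s r) (x : Lp L s) (y w : Lm L s) :
    adQ h.lie s (brE h.lie x y) w = -(bet L s r x y • w + bet L s r x w • y) := by
  refine Subtype.ext ?_
  rw [adQ_apply]
  show (x.1 * y.1 - y.1 * x.1) * w.1 - w.1 * (x.1 * y.1 - y.1 * x.1) = -(bet L s r x y • w.1 + bet L s r x w • y.1)
  have h1 : y.1 * w.1 = 0 := A2_mm y.2 w.2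
  have h2 : w.1 * y.1 = 0 := A2_mm w.2 y.2
  have h3 := h.lin2 x y w
  calc (x.1 * y.1 - y.1 * x.1) * w.1 - w.1 * (x.1 * y.1 - y.1 * x.1) =
        x.1 * (y.1 * w.1) - (y.1 * x.1 * w.1 + w.1 * x.1 * y.1) + (w.1 * y.1) * x.1 := by noncomm_ring
    _ = _ := by rw [h1, h2, mul_zero, zero_mul, add_zero, zero_sub, h3]

theorem AH.lam_br (h : AH L s r) (x : Lp L s) (y : Lm L s) :
    lam h.lie s (brE h.lie x y) = bet L s r x y := by
  have h1 : adQ h.lie s (brE h.lie x y) = (-1 : K) • (bet L s r x y • (1 : Module.End K (Lm L s)) +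
      (bet L s r x).smulRight y) := by
    refine LinearMap.ext fun w => ?_
    rw [h.act, LinearMap.smul_apply, neg_one_smul]
    rfl
  unfold lam
  rw [LinearMap.smul_apply, LinearMap.comp_apply, h1, map_smul, map_add, map_smul, LinearMap.trace_one,
    LinearMap.trace_smulRight, smul_eq_mul, smul_eq_mul, smul_eq_mul]
  have h2 : (finrank K (Lm L s) : K) + 1 ≠ 0 := by
    have : ((finrank K (Lm L s) + 1 : ℕ) : K) ≠ 0 := Nat.cast_ne_zero.2 (Nat.succ_ne_zero _)
    push_cast at this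
    exact this
  field_simp

theorem AH.inv (h : AH L s r) (Z : L0 L s) (x : Lp L s) (y : Lm L s) :
    bet L s r ⟨Z.1 * x.1 - x.1 * Z.1, br0p h.lie Z.2 x.2⟩ y + bet L s r x (adQ h.lie s Z y) = 0 := by
  rw [bet_apply, bet_apply, adQ_apply, ← mul_add, ← map_add]
  have h1 : (Z.1 * x.1 - x.1 * Z.1) * y.1 + x.1 * (Z.1 * y.1 - y.1 * Z.1) =
      Z.1 * (x.1 * y.1) - (x.1 * y.1) * Z.1 := by noncomm_ring
  show r⁻¹ * LinearMap.trace K V ((Z.1 * x.1 - x.1 * Z.1) * y.1 + x.1 * (Z.1 * y.1 - y.1 * Z.1)) = 0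
  rw [h1, map_sub, LinearMap.trace_mul_comm, sub_self, mul_zero]

theorem AH.adQ_comm (h : AH L s r) (Z Z' : L0 L s) :
    adQ h.lie s ⟨Z.1 * Z'.1 - Z'.1 * Z.1, br00 h.lie Z.2 Z'.2⟩ =
      adQ h.lie s Z * adQ h.lie s Z' - adQ h.lie s Z' * adQ h.lie s Z := by
  refine LinearMap.ext fun w => Subtype.ext ?_
  show (Z.1 * Z'.1 - Z'.1 * Z.1) * w.1 - w.1 * (Z.1 * Z'.1 - Z'.1 * Z.1) =
    (Z.1 * (Z'.1 * w.1 - w.1 * Z'.1) - (Z'.1 * w.1 - w.1 * Z'.1) * Z.1) -
      (Z'.1 * (Z.1 * w.1 - w.1 * Z.1) - (Z.1 * w.1 - w.1 * Z.1) * Z'.1)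
  noncomm_ring

theorem AH.lam_comm (h : AH L s r) (Z Z' : L0 L s) :
    lam h.lie s ⟨Z.1 * Z'.1 - Z'.1 * Z.1, br00 h.lie Z.2 Z'.2⟩ = 0 := by
  have h1 := h.adQ_comm Z Z'
  have h2 : adQ h.lie s ⟨Z.1 * Z'.1 - Z'.1 * Z.1, br00 h.lie Z.2 Z'.2⟩ + adQ h.lie s Z' * adQ h.lie s Z =
      adQ h.lie s Z * adQ h.lie s Z' := by
    refine LinearMap.ext fun w => ?_
    have h0 := LinearMap.congr_fun h1 w
    rw [LinearMap.add_apply, h0, LinearMap.sub_apply]
    exact sub_add_cancel _ _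
  have h3 := congrArg (LinearMap.trace K (Lm L s)) h2
  rw [map_add, LinearMap.trace_mul_comm K (adQ h.lie s Z) (adQ h.lie s Z')] at h3
  have h4 := add_eq_right.1 h3
  unfold lam
  rw [LinearMap.smul_apply, LinearMap.comp_apply, h4, smul_zero]

theorem opE_opE (u u' : Lp L s) : opE L s r u * opE L s r u' = 0 := by
  refine LinearMap.ext fun z => ?_
  rw [Module.End.mul_apply, opE_apply, opE_apply, map_zero]
  rfl

theorem opF_opF (v v' : Lm L s) : opF L s v * opF L s v' = 0 := by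
  refine LinearMap.ext fun z => ?_
  rw [Module.End.mul_apply, opF_apply, opF_apply, zero_smul]
  rfl

theorem AH.DE (h : AH L s r) (Z : L0 L s) (u : Lp L s) :
    opD h.lie s Z * opE L s r u - opE L s r u * opD h.lie s Z =
      opE L s r ⟨Z.1 * u.1 - u.1 * Z.1, br0p h.lie Z.2 u.2⟩ := by
  refine LinearMap.ext fun z => ?_
  rw [LinearMap.sub_apply, Module.End.mul_apply, Module.End.mul_apply, opE_apply, opD_apply, opD_apply,
    opE_apply, opE_apply, map_add, map_smul, map_zero, smul_zero, add_zero]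
  refine Prod.ext ?_ ?_
  · show lam h.lie s Z * bet L s r u z.2 - (bet L s r u (adQ h.lie s Z z.2) + lam h.lie s Z • bet L s r u z.2) = _
    have h1 := h.inv Z u z.2
    rw [eq_neg_of_add_eq_zero_left h1, smul_eq_mul]
    ring
  · show (0 : Lm L s) - 0 = 0
    rw [sub_zero]

theorem AH.DF (h : AH L s r) (Z : L0 L s) (v : Lm L s) :
    opD h.lie s Z * opF L s v - opF L s v * opD h.lie s Z = opF L s (adQ h.lie s Z v) := by
  refine LinearMap.ext fun z => ?_
  rw [LinearMap.sub_apply, Module.End.mul_apply, Module.End.mul_apply, opF_apply, opD_apply, opD_apply,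
    opF_apply, opF_apply, map_smul, mul_zero]
  refine Prod.ext ?_ ?_
  · show (0 : K) - 0 = 0
    rw [sub_zero]
  · show z.1 • adQ h.lie s Z v + lam h.lie s Z • z.1 • v - (lam h.lie s Z * z.1) • v = z.1 • adQ h.lie s Z v
    rw [smul_smul, add_sub_cancel_right]

theorem AH.EF (h : AH L s r) (u : Lp L s) (v : Lm L s) :
    opE L s r u * opF L s v - opF L s v * opE L s r u = opD h.lie s (brE h.lie u v) := by
  refine LinearMap.ext fun z => ?_
  rw [LinearMap.sub_apply, Module.End.mul_apply, Module.End.mul_apply, opF_apply, opE_apply, opE_apply,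
    opF_apply, opD_apply, h.lam_br, h.act, map_smul]
  refine Prod.ext ?_ ?_
  · show z.1 • bet L s r u v - 0 = bet L s r u v * z.1
    rw [sub_zero, smul_eq_mul, mul_comm]
  · show (0 : Lm L s) - bet L s r u z.2 • v = -(bet L s r u v • z.2 + bet L s r u z.2 • v) + bet L s r u v • z.2
    abel

theorem AH.DD (h : AH L s r) (Z Z' : L0 L s) :
    opD h.lie s Z * opD h.lie s Z' - opD h.lie s Z' * opD h.lie s Z =
      opD h.lie s ⟨Z.1 * Z'.1 - Z'.1 * Z.1, br00 h.lie Z.2 Z'.2⟩ := by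
  refine LinearMap.ext fun z => ?_
  rw [LinearMap.sub_apply, Module.End.mul_apply, Module.End.mul_apply, opD_apply, opD_apply, opD_apply,
    opD_apply, opD_apply, h.lam_comm, h.adQ_comm, zero_mul, zero_smul, add_zero]
  refine Prod.ext ?_ ?_
  · show lam h.lie s Z * (lam h.lie s Z' * z.1) - lam h.lie s Z' * (lam h.lie s Z * z.1) = 0
    ring
  · show adQ h.lie s Z (adQ h.lie s Z' z.2 + lam h.lie s Z' • z.2) +
        lam h.lie s Z • (adQ h.lie s Z' z.2 + lam h.lie s Z' • z.2) -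
      (adQ h.lie s Z' (adQ h.lie s Z z.2 + lam h.lie s Z • z.2) +
        lam h.lie s Z' • (adQ h.lie s Z z.2 + lam h.lie s Z • z.2)) =
      adQ h.lie s Z (adQ h.lie s Z' z.2) - adQ h.lie s Z' (adQ h.lie s Z z.2)
    rw [map_add, map_add, map_smul, map_smul, smul_add, smul_add, smul_smul, smul_smul, mul_comm (lam h.lie s Z')]
    abel

end Pool.Agent.H86K
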