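import Pool.Agent.Lib.H86K.K3

/-!
# K4: the cubic invariant
-/

set_option autoImplicit false
set_option linter.unusedSectionVars false
namespace Pool.Agent.H86K
open Module Pool.Agent.H53Toric Pool.Agent.H49M

variable {K : Type*} [Field K] [CharZero K] {V : Type*} [AddCommGroup V] [Module K V] [FiniteDimensional K V]

variable {L : Submodule K (Module.End K V)} {s : Module.End K V} {r : K}

section pieces
variable (hl : IsLie L) (hs : s ∈ L) (hs2 : s * s = 1)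

theorem mP (hl : IsLie L) (hs : s ∈ L) (hs2 : s * s = 1) {X : Module.End K V} (hX : X ∈ L) :
    (1 / 4 : K) • ((1 + s) * X * (1 - s)) ∈ Lp L s := by
  refine (Lp L s).smul_mem _ ⟨hl.plus hs hs2 hX, ?_, ?_⟩
  · calc s * ((1 + s) * X * (1 - s)) = (s + s * s) * X * (1 - s) := by noncomm_ring
      _ = _ := by rw [hs2, add_comm]
  · calc (1 + s) * X * (1 - s) * s = (1 + s) * X * (s - s * s) := by noncomm_ring
      _ = _ := by rw [hs2]; noncomm_ring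

theorem mQ (hl : IsLie L) (hs : s ∈ L) (hs2 : s * s = 1) {X : Module.End K V} (hX : X ∈ L) :
    (1 / 4 : K) • ((1 - s) * X * (1 + s)) ∈ Lm L s := by
  refine (Lm L s).smul_mem _ ⟨hl.minus hs hs2 hX, ?_, ?_⟩
  · calc s * ((1 - s) * X * (1 + s)) = (s - s * s) * X * (1 + s) := by noncomm_ring
      _ = _ := by rw [hs2]; noncomm_ring
  · calc (1 - s) * X * (1 + s) * s = (1 - s) * X * (s + s * s) := by noncomm_ring
      _ = _ := by rw [hs2, add_comm]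

theorem sum_parts (hs2 : s * s = 1) (X : Module.End K V) :
    X = (1 / 4 : K) • ((1 + s) * X * (1 - s)) + (1 / 2 : K) • (X + s * X * s) +
      (1 / 4 : K) • ((1 - s) * X * (1 + s)) := by
  have h1 : (1 + s) * X * (1 - s) + (1 - s) * X * (1 + s) = (2 : K) • X - (2 : K) • (s * X * s) := by
    rw [two_smul, two_smul]; noncomm_ring
  have h2 : (1 / 4 : K) • ((1 + s) * X * (1 - s)) + (1 / 4 : K) • ((1 - s) * X * (1 + s)) =
      (1 / 2 : K) • (X - s * X * s) := by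
    rw [← smul_add, h1, ← smul_sub, smul_smul]
    norm_num
  have h3 : X = (1 / 2 : K) • (X - s * X * s) + (1 / 2 : K) • (X + s * X * s) := by
    rw [← smul_add]
    have h4 : X - s * X * s + (X + s * X * s) = (2 : K) • X := by rw [two_smul]; abel
    rw [h4, smul_smul]
    norm_num
  calc X = (1 / 2 : K) • (X - s * X * s) + (1 / 2 : K) • (X + s * X * s) := h3
    _ = _ := by rw [← h2]; abel

theorem m0 (hl : IsLie L) (hs : s ∈ L) (hs2 : s * s = 1) {X : Module.End K V} (hX : X ∈ L) :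
    (1 / 2 : K) • (X + s * X * s) ∈ L0 L s := by
  refine (L0 L s).smul_mem _ ⟨?_, ?_⟩
  · have h1 := sum_parts (K := K) hs2 X
    have h2 : (1 / 2 : K) • (X + s * X * s) = X - (1 / 4 : K) • ((1 + s) * X * (1 - s)) -
        (1 / 4 : K) • ((1 - s) * X * (1 + s)) := by
      rw [sub_sub, eq_sub_iff_add_eq]
      refine Eq.trans ?_ h1.symm
      abel
    have h3 : (1 / 2 : K) • (X + s * X * s) ∈ L := by
      rw [h2]
      exact L.sub_mem (L.sub_mem hX (mP hl hs hs2 hX).1) (mQ hl hs hs2 hX).1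
    have h4 := L.smul_mem (2 : K) h3
    rw [smul_smul] at h4
    norm_num at h4
    exact h4
  · rw [mul_add, add_mul]
    have h1 : s * (s * X * s) = X * s := by
      rw [← mul_assoc, ← mul_assoc, hs2, one_mul]
    have h2 : s * X * s * s = s * X := by
      rw [mul_assoc, hs2, mul_one]
    rw [h1, h2, add_comm]

end pieces

/-- The projections. -/
noncomputable def prP (h : AH L s r) : L →ₗ[K] Lp L s where
  toFun X := ⟨(1 / 4 : K) • ((1 + s) * X.1 * (1 - s)), mP h.lie h.s_mem h.s_sq X.2⟩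
  map_add' X Y := Subtype.ext (by
    show (1 / 4 : K) • ((1 + s) * (X.1 + Y.1) * (1 - s)) = (1 / 4 : K) • ((1 + s) * X.1 * (1 - s)) +
      (1 / 4 : K) • ((1 + s) * Y.1 * (1 - s))
    rw [mul_add, add_mul, smul_add])
  map_smul' c X := Subtype.ext (by
    show (1 / 4 : K) • ((1 + s) * (c • X.1) * (1 - s)) = c • ((1 / 4 : K) • ((1 + s) * X.1 * (1 - s)))
    rw [mul_smul_comm, smul_mul_assoc, smul_comm])

noncomputable def prQ (h : AH L s r) : L →ₗ[K] Lm L s where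
  toFun X := ⟨(1 / 4 : K) • ((1 - s) * X.1 * (1 + s)), mQ h.lie h.s_mem h.s_sq X.2⟩
  map_add' X Y := Subtype.ext (by
    show (1 / 4 : K) • ((1 - s) * (X.1 + Y.1) * (1 + s)) = (1 / 4 : K) • ((1 - s) * X.1 * (1 + s)) +
      (1 / 4 : K) • ((1 - s) * Y.1 * (1 + s))
    rw [mul_add (1 - s), add_mul, smul_add])
  map_smul' c X := Subtype.ext (by
    show (1 / 4 : K) • ((1 - s) * (c • X.1) * (1 + s)) = c • ((1 / 4 : K) • ((1 - s) * X.1 * (1 + s)))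
    rw [mul_smul_comm, smul_mul_assoc, smul_comm])

noncomputable def pr0 (h : AH L s r) : L →ₗ[K] L0 L s where
  toFun X := ⟨(1 / 2 : K) • (X.1 + s * X.1 * s), m0 h.lie h.s_mem h.s_sq X.2⟩
  map_add' X Y := Subtype.ext (by
    show (1 / 2 : K) • ((X.1 + Y.1) + s * (X.1 + Y.1) * s) = (1 / 2 : K) • (X.1 + s * X.1 * s) +
      (1 / 2 : K) • (Y.1 + s * Y.1 * s)
    rw [mul_add, add_mul, ← smul_add]; congr 1; abel)
  map_smul' c X := Subtype.ext (by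
    show (1 / 2 : K) • ((c • X.1) + s * (c • X.1) * s) = c • ((1 / 2 : K) • (X.1 + s * X.1 * s))
    rw [mul_smul_comm, smul_mul_assoc, ← smul_add, smul_comm])

/-- The representation. -/
noncomputable def rho (h : AH L s r) : L →ₗ[K] Module.End K (K × Lm L s) :=
  opE L s r ∘ₗ prP h + opD h.lie s ∘ₗ pr0 h + opF L s ∘ₗ prQ h

theorem rho_def (h : AH L s r) (X : L) :
    rho h X = opE L s r (prP h X) + opD h.lie s (pr0 h X) + opF L s (prQ h X) := rfl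

theorem rho_p (h : AH L s r) (u : Lp L s) : rho h ⟨u.1, u.2.1⟩ = opE L s r u := by
  have h1 : prP h ⟨u.1, u.2.1⟩ = u := Subtype.ext (by
    show (1 / 4 : K) • ((1 + s) * u.1 * (1 - s)) = u.1
    have e1 : (1 + s) * u.1 = (2 : K) • u.1 := by rw [add_mul, u.2.2.1, one_mul, two_smul]
    have e2 : u.1 * (1 - s) = (2 : K) • u.1 := by rw [mul_sub, u.2.2.2, mul_one, two_smul]; abel
    rw [e1, smul_mul_assoc, e2, smul_smul, smul_smul]
    norm_num)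
  have h2 : pr0 h ⟨u.1, u.2.1⟩ = 0 := Subtype.ext (by
    show (1 / 2 : K) • (u.1 + s * u.1 * s) = 0
    rw [u.2.2.1, u.2.2.2, add_neg_cancel, smul_zero])
  have h3 : prQ h ⟨u.1, u.2.1⟩ = 0 := Subtype.ext (by
    show (1 / 4 : K) • ((1 - s) * u.1 * (1 + s)) = 0
    have e1 : (1 - s) * u.1 = 0 := by rw [sub_mul, u.2.2.1, one_mul, sub_self]
    rw [e1, zero_mul, smul_zero])
  rw [rho_def, h1, h2, h3, map_zero, map_zero, add_zero, add_zero]

theorem rho_m (h : AH L s r) (u : Lm L s) : rho h ⟨u.1, u.2.1⟩ = opF L s u := by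
  have h1 : prQ h ⟨u.1, u.2.1⟩ = u := Subtype.ext (by
    show (1 / 4 : K) • ((1 - s) * u.1 * (1 + s)) = u.1
    have e1 : (1 - s) * u.1 = (2 : K) • u.1 := by rw [sub_mul, u.2.2.1, one_mul, two_smul]; abel
    have e2 : u.1 * (1 + s) = (2 : K) • u.1 := by rw [mul_add, u.2.2.2, mul_one, two_smul]
    rw [e1, smul_mul_assoc, e2, smul_smul, smul_smul]
    norm_num)
  have h2 : pr0 h ⟨u.1, u.2.1⟩ = 0 := Subtype.ext (by
    show (1 / 2 : K) • (u.1 + s * u.1 * s) = 0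
    rw [u.2.2.1, neg_mul, u.2.2.2, add_neg_cancel, smul_zero])
  have h3 : prP h ⟨u.1, u.2.1⟩ = 0 := Subtype.ext (by
    show (1 / 4 : K) • ((1 + s) * u.1 * (1 - s)) = 0
    have e1 : (1 + s) * u.1 = 0 := by rw [add_mul, u.2.2.1, one_mul, add_neg_cancel]
    rw [e1, zero_mul, smul_zero])
  rw [rho_def, h1, h2, h3, map_zero, map_zero, zero_add, zero_add]

theorem rho_0 (h : AH L s r) (u : L0 L s) : rho h ⟨u.1, u.2.1⟩ = opD h.lie s u := by
  have h1 : pr0 h ⟨u.1, u.2.1⟩ = u := Subtype.ext (by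
    show (1 / 2 : K) • (u.1 + s * u.1 * s) = u.1
    have e1 : s * u.1 * s = u.1 := by rw [u.2.2, mul_assoc, h.s_sq, mul_one]
    rw [e1, ← two_smul K, smul_smul]
    norm_num)
  have h2 : prP h ⟨u.1, u.2.1⟩ = 0 := Subtype.ext (by
    show (1 / 4 : K) • ((1 + s) * u.1 * (1 - s)) = 0
    have e1 : (1 + s) * u.1 * (1 - s) = u.1 - u.1 * (s * s) + (s * u.1 - u.1 * s) -
        (s * u.1 - u.1 * s) * s := by noncomm_ring
    rw [e1, h.s_sq, mul_one, u.2.2, sub_self, sub_self, zero_mul, add_zero, sub_zero, smul_zero])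
  have h3 : prQ h ⟨u.1, u.2.1⟩ = 0 := Subtype.ext (by
    show (1 / 4 : K) • ((1 - s) * u.1 * (1 + s)) = 0
    have e1 : (1 - s) * u.1 * (1 + s) = u.1 - u.1 * (s * s) - (s * u.1 - u.1 * s) -
        (s * u.1 - u.1 * s) * s := by noncomm_ring
    rw [e1, h.s_sq, mul_one, u.2.2, sub_self, sub_self, zero_mul, sub_zero, sub_zero, smul_zero])
  rw [rho_def, h1, h2, h3, map_zero, map_zero, zero_add, add_zero]

/-- The bracket of `L`. -/
def brL (hl : IsLie L) (X Y : L) : L := ⟨X.1 * Y.1 - Y.1 * X.1, hl _ X.2 _ Y.2⟩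

theorem brL_add1 (hl : IsLie L) (X X' Y : L) : brL hl (X + X') Y = brL hl X Y + brL hl X' Y :=
  Subtype.ext (by
    show (X.1 + X'.1) * Y.1 - Y.1 * (X.1 + X'.1) = (X.1 * Y.1 - Y.1 * X.1) + (X'.1 * Y.1 - Y.1 * X'.1)
    noncomm_ring)

theorem brL_add2 (hl : IsLie L) (X Y Y' : L) : brL hl X (Y + Y') = brL hl X Y + brL hl X Y' :=
  Subtype.ext (by
    show X.1 * (Y.1 + Y'.1) - (Y.1 + Y'.1) * X.1 = (X.1 * Y.1 - Y.1 * X.1) + (X.1 * Y'.1 - Y'.1 * X.1)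
    noncomm_ring)

theorem brL_anti (hl : IsLie L) (X Y : L) : brL hl X Y + brL hl Y X = 0 :=
  Subtype.ext (by
    show (X.1 * Y.1 - Y.1 * X.1) + (Y.1 * X.1 - X.1 * Y.1) = 0
    abel)

/-- The compatibility with the bracket. -/
def Hom2 (h : AH L s r) (X Y : L) : Prop := rho h (brL h.lie X Y) + rho h Y * rho h X = rho h X * rho h Y

theorem Hom2.symm {h : AH L s r} {X Y : L} (h1 : Hom2 h X Y) : Hom2 h Y X := by
  unfold Hom2 at h1 ⊢
  rw [← h1, ← add_assoc, ← map_add, add_comm (brL h.lie Y X), brL_anti, map_zero, zero_add]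

theorem Hom2.add1 {h : AH L s r} {X X' Y : L} (h1 : Hom2 h X Y) (h2 : Hom2 h X' Y) : Hom2 h (X + X') Y := by
  unfold Hom2 at h1 h2 ⊢
  rw [brL_add1, map_add, map_add, mul_add, add_mul, ← h1, ← h2]
  abel

theorem Hom2.add2 {h : AH L s r} {X Y Y' : L} (h1 : Hom2 h X Y) (h2 : Hom2 h X Y') : Hom2 h X (Y + Y') :=
  (h1.symm.add1 h2.symm).symm

theorem hom_pp (h : AH L s r) (u v : Lp L s) : Hom2 h ⟨u.1, u.2.1⟩ ⟨v.1, v.2.1⟩ := by
  unfold Hom2
  have h1 : brL h.lie ⟨u.1, u.2.1⟩ ⟨v.1, v.2.1⟩ = 0 := Subtype.ext (by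
    show u.1 * v.1 - v.1 * u.1 = 0
    rw [A2_pp u.2 v.2, A2_pp v.2 u.2, sub_zero])
  rw [h1, map_zero, rho_p, rho_p, opE_opE, opE_opE, add_zero]

theorem hom_mm (h : AH L s r) (u v : Lm L s) : Hom2 h ⟨u.1, u.2.1⟩ ⟨v.1, v.2.1⟩ := by
  unfold Hom2
  have h1 : brL h.lie ⟨u.1, u.2.1⟩ ⟨v.1, v.2.1⟩ = 0 := Subtype.ext (by
    show u.1 * v.1 - v.1 * u.1 = 0
    rw [A2_mm u.2 v.2, A2_mm v.2 u.2, sub_zero])
  rw [h1, map_zero, rho_m, rho_m, opF_opF, opF_opF, add_zero]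

theorem hom_pm (h : AH L s r) (u : Lp L s) (v : Lm L s) : Hom2 h ⟨u.1, u.2.1⟩ ⟨v.1, v.2.1⟩ := by
  unfold Hom2
  have h1 := rho_0 h (brE h.lie u v)
  have h2 : brL h.lie ⟨u.1, u.2.1⟩ ⟨v.1, v.2.1⟩ = ⟨(brE h.lie u v).1, (brE h.lie u v).2.1⟩ := rfl
  rw [h2, h1, rho_p, rho_m, ← h.EF]
  refine LinearMap.ext fun z => ?_
  rw [LinearMap.add_apply, LinearMap.sub_apply]
  exact sub_add_cancel _ _

theorem hom_0p (h : AH L s r) (Z : L0 L s) (u : Lp L s) : Hom2 h ⟨Z.1, Z.2.1⟩ ⟨u.1, u.2.1⟩ := by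
  unfold Hom2
  have h1 := rho_p h ⟨Z.1 * u.1 - u.1 * Z.1, br0p h.lie Z.2 u.2⟩
  have h2 : brL h.lie ⟨Z.1, Z.2.1⟩ ⟨u.1, u.2.1⟩ =
    ⟨Z.1 * u.1 - u.1 * Z.1, (br0p h.lie Z.2 u.2).1⟩ := rfl
  rw [h2, h1, rho_p, rho_0, ← h.DE]
  refine LinearMap.ext fun z => ?_
  rw [LinearMap.add_apply, LinearMap.sub_apply]
  exact sub_add_cancel _ _

theorem hom_0m (h : AH L s r) (Z : L0 L s) (u : Lm L s) : Hom2 h ⟨Z.1, Z.2.1⟩ ⟨u.1, u.2.1⟩ := by
  unfold Hom2
  have h1 := rho_m h (adQ h.lie s Z u)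
  have h2 : brL h.lie ⟨Z.1, Z.2.1⟩ ⟨u.1, u.2.1⟩ = ⟨(adQ h.lie s Z u).1, (adQ h.lie s Z u).2.1⟩ := rfl
  rw [h2, h1, rho_m, rho_0, ← h.DF]
  refine LinearMap.ext fun z => ?_
  rw [LinearMap.add_apply, LinearMap.sub_apply]
  exact sub_add_cancel _ _

theorem hom_00 (h : AH L s r) (Z Z' : L0 L s) : Hom2 h ⟨Z.1, Z.2.1⟩ ⟨Z'.1, Z'.2.1⟩ := by
  unfold Hom2
  have h1 := rho_0 h ⟨Z.1 * Z'.1 - Z'.1 * Z.1, br00 h.lie Z.2 Z'.2⟩
  have h2 : brL h.lie ⟨Z.1, Z.2.1⟩ ⟨Z'.1, Z'.2.1⟩ =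
    ⟨Z.1 * Z'.1 - Z'.1 * Z.1, (br00 h.lie Z.2 Z'.2).1⟩ := rfl
  rw [h2, h1, rho_0, rho_0, ← h.DD]
  refine LinearMap.ext fun z => ?_
  rw [LinearMap.add_apply, LinearMap.sub_apply]
  exact sub_add_cancel _ _

theorem decL (h : AH L s r) (X : L) : X = ⟨(prP h X).1, (prP h X).2.1⟩ + ⟨(pr0 h X).1, (pr0 h X).2.1⟩ +
    ⟨(prQ h X).1, (prQ h X).2.1⟩ := Subtype.ext (sum_parts h.s_sq X.1)

theorem rho_lie (h : AH L s r) (X Y : L) : Hom2 h X Y := by
  rw [decL h X, decL h Y]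
  refine Hom2.add1 (Hom2.add1 ?_ ?_) ?_ <;> refine Hom2.add2 (Hom2.add2 ?_ ?_) ?_
  · exact hom_pp h _ _
  · exact (hom_0p h _ _).symm
  · exact hom_pm h _ _
  · exact hom_0p h _ _
  · exact hom_00 h _ _
  · exact hom_0m h _ _
  · exact (hom_pm h _ _).symm
  · exact (hom_0m h _ _).symm
  · exact hom_mm h _ _

end Pool.Agent.H86K
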