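import Pool.Agent.Lib.H86K.K4

/-!
# K5: an involution is not conjugate to its negative
-/

set_option autoImplicit false
set_option linter.unusedSectionVars false
namespace Pool.Agent.H86K
open Module Pool.Agent.H53Toric Pool.Agent.H49M

variable {K : Type*} [Field K] [CharZero K] {V : Type*} [AddCommGroup V] [Module K V] [FiniteDimensional K V]

variable {L : Submodule K (Module.End K V)} {s : Module.End K V} {r : K}

/-- The trilinear form. -/
noncomputable def tri (h : AH L s r) (X Y Z : L) : K :=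
  LinearMap.trace K (K × Lm L s) (rho h X * rho h Y * rho h Z)

theorem tri_add1 (h : AH L s r) (X X' Y Z : L) : tri h (X + X') Y Z = tri h X Y Z + tri h X' Y Z := by
  unfold tri
  rw [map_add, add_mul, add_mul, map_add]

theorem tri_add2 (h : AH L s r) (X Y Y' Z : L) : tri h X (Y + Y') Z = tri h X Y Z + tri h X Y' Z := by
  unfold tri
  rw [map_add, mul_add, add_mul, map_add]

theorem tri_add3 (h : AH L s r) (X Y Z Z' : L) : tri h X Y (Z + Z') = tri h X Y Z + tri h X Y Z' := by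
  unfold tri
  rw [map_add, mul_add, map_add]

theorem tri_smul1 (h : AH L s r) (c : K) (X Y Z : L) : tri h (c • X) Y Z = c * tri h X Y Z := by
  unfold tri
  rw [map_smul, smul_mul_assoc, smul_mul_assoc, map_smul, smul_eq_mul]

theorem tri_smul2 (h : AH L s r) (c : K) (X Y Z : L) : tri h X (c • Y) Z = c * tri h X Y Z := by
  unfold tri
  rw [map_smul, mul_smul_comm, smul_mul_assoc, map_smul, smul_eq_mul]

theorem tri_smul3 (h : AH L s r) (c : K) (X Y Z : L) : tri h X Y (c • Z) = c * tri h X Y Z := by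
  unfold tri
  rw [map_smul, mul_smul_comm, map_smul, smul_eq_mul]

theorem tri_wt (h : AH L s r) {z X Y Z : L} {a b c : K} (hX : brL h.lie z X = a • X)
    (hY : brL h.lie z Y = b • Y) (hZ : brL h.lie z Z = c • Z) : (a + b + c) * tri h X Y Z = 0 := by
  have h1 := rho_lie h z X
  have h2 := rho_lie h z Y
  have h3 := rho_lie h z Z
  unfold Hom2 at h1 h2 h3
  rw [hX, map_smul] at h1
  rw [hY, map_smul] at h2
  rw [hZ, map_smul] at h3
  have h4 : rho h z * (rho h X * rho h Y * rho h Z) = (a + b + c) • (rho h X * rho h Y * rho h Z) +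
      (rho h X * rho h Y * rho h Z) * rho h z := by
    calc rho h z * (rho h X * rho h Y * rho h Z) = (rho h z * rho h X) * rho h Y * rho h Z := by
          simp only [mul_assoc]
      _ = a • (rho h X * rho h Y * rho h Z) + rho h X * (rho h z * rho h Y) * rho h Z := by
          rw [← h1, add_mul, add_mul, smul_mul_assoc, smul_mul_assoc]
          simp only [mul_assoc]
      _ = a • (rho h X * rho h Y * rho h Z) + (b • (rho h X * rho h Y * rho h Z) +
            rho h X * rho h Y * (rho h z * rho h Z)) := by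
          rw [← h2, mul_add, add_mul, mul_smul_comm, smul_mul_assoc]
          simp only [mul_assoc]
      _ = a • (rho h X * rho h Y * rho h Z) + (b • (rho h X * rho h Y * rho h Z) +
            (c • (rho h X * rho h Y * rho h Z) + rho h X * rho h Y * rho h Z * rho h z)) := by
          rw [← h3, mul_add, mul_smul_comm]
          simp only [mul_assoc]
      _ = _ := by
          rw [add_smul, add_smul]
          simp only [add_assoc]
  have h5 := congrArg (LinearMap.trace K (K × Lm L s)) h4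
  rw [LinearMap.trace_mul_comm, map_add, map_smul, smul_eq_mul] at h5
  exact right_eq_add.1 h5

/-- The cubic form. -/
noncomputable def cub (h : AH L s r) (X : L) : K := tri h X X X

theorem cub_wt (h : AH L s r) {z A B C : L} (hA : brL h.lie z A = (2 : K) • A)
    (hB : brL h.lie z B = (0 : K) • B) (hC : brL h.lie z C = (-2 : K) • C) {t : K} (ht : t ≠ 0) :
    cub h (t • A + B + t⁻¹ • C) = cub h (A + B + C) := by
  have z1 : tri h A A A = 0 := by
    have := tri_wt h hA hA hA
    exact (mul_eq_zero.1 this).resolve_left (by norm_num)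
  have z2 : tri h A A B = 0 := (mul_eq_zero.1 (tri_wt h hA hA hB)).resolve_left (by norm_num)
  have z3 : tri h A B A = 0 := (mul_eq_zero.1 (tri_wt h hA hB hA)).resolve_left (by norm_num)
  have z4 : tri h B A A = 0 := (mul_eq_zero.1 (tri_wt h hB hA hA)).resolve_left (by norm_num)
  have z5 : tri h A A C = 0 := (mul_eq_zero.1 (tri_wt h hA hA hC)).resolve_left (by norm_num)
  have z6 : tri h A C A = 0 := (mul_eq_zero.1 (tri_wt h hA hC hA)).resolve_left (by norm_num)
  have z7 : tri h C A A = 0 := (mul_eq_zero.1 (tri_wt h hC hA hA)).resolve_left (by norm_num)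
  have z8 : tri h A B B = 0 := (mul_eq_zero.1 (tri_wt h hA hB hB)).resolve_left (by norm_num)
  have z9 : tri h B A B = 0 := (mul_eq_zero.1 (tri_wt h hB hA hB)).resolve_left (by norm_num)
  have z10 : tri h B B A = 0 := (mul_eq_zero.1 (tri_wt h hB hB hA)).resolve_left (by norm_num)
  have z11 : tri h C C C = 0 := (mul_eq_zero.1 (tri_wt h hC hC hC)).resolve_left (by norm_num)
  have z12 : tri h C C B = 0 := (mul_eq_zero.1 (tri_wt h hC hC hB)).resolve_left (by norm_num)
  have z13 : tri h C B C = 0 := (mul_eq_zero.1 (tri_wt h hC hB hC)).resolve_left (by norm_num)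
  have z14 : tri h B C C = 0 := (mul_eq_zero.1 (tri_wt h hB hC hC)).resolve_left (by norm_num)
  have z15 : tri h C C A = 0 := (mul_eq_zero.1 (tri_wt h hC hC hA)).resolve_left (by norm_num)
  have z16 : tri h C A C = 0 := (mul_eq_zero.1 (tri_wt h hC hA hC)).resolve_left (by norm_num)
  have z17 : tri h A C C = 0 := (mul_eq_zero.1 (tri_wt h hA hC hC)).resolve_left (by norm_num)
  have z18 : tri h C B B = 0 := (mul_eq_zero.1 (tri_wt h hC hB hB)).resolve_left (by norm_num)
  have z19 : tri h B C B = 0 := (mul_eq_zero.1 (tri_wt h hB hC hB)).resolve_left (by norm_num)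
  have z20 : tri h B B C = 0 := (mul_eq_zero.1 (tri_wt h hB hB hC)).resolve_left (by norm_num)
  unfold cub
  simp only [tri_add1, tri_add2, tri_add3, tri_smul1, tri_smul2, tri_smul3, z1, z2, z3, z4, z5, z6, z7, z8, z9,
    z10, z11, z12, z13, z14, z15, z16, z17, z18, z19, z20, mul_zero, add_zero, zero_add]
  field_simp

/-- The one parameter groups of the involutions of `L`. -/
def tset (L : Submodule K (Module.End K V)) : Set (Module.End K V) :=
  {X | ∃ z ∈ L, z * z = 1 ∧ ∃ t : K, t ≠ 0 ∧ X = ((1 + t) / 2) • 1 + ((t - 1) / 2) • z}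

theorem tset_inv {z : Module.End K V} (hz : z * z = 1) {t : K} (ht : t ≠ 0) :
    (((1 + t) / 2) • (1 : Module.End K V) + ((t - 1) / 2) • z) *
      (((1 + t⁻¹) / 2) • 1 + ((t⁻¹ - 1) / 2) • z) = 1 := by
  have h1 : (((1 + t) / 2) • (1 : Module.End K V) + ((t - 1) / 2) • z) *
      (((1 + t⁻¹) / 2) • 1 + ((t⁻¹ - 1) / 2) • z) =
      (((1 + t) / 2) * ((1 + t⁻¹) / 2) + ((t - 1) / 2) * ((t⁻¹ - 1) / 2)) • (1 : Module.End K V) +
      (((1 + t) / 2) * ((t⁻¹ - 1) / 2) + ((t - 1) / 2) * ((1 + t⁻¹) / 2)) • z := by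
    rw [add_mul, mul_add, mul_add]
    simp only [smul_mul_assoc, mul_smul_comm, one_mul, mul_one, smul_smul, hz]
    module
  have h2 : ((1 + t) / 2) * ((1 + t⁻¹) / 2) + ((t - 1) / 2) * ((t⁻¹ - 1) / 2) = 1 := by
    field_simp
    ring
  have h3 : ((1 + t) / 2) * ((t⁻¹ - 1) / 2) + ((t - 1) / 2) * ((1 + t⁻¹) / 2) = 0 := by
    field_simp
    ring
  rw [h1, h2, h3, one_smul, zero_smul, add_zero]

theorem inv_unique {A B B' : Module.End K V} (h : A * B = 1) (h' : A * B' = 1) : B = B' := by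
  have h1 : B * A = 1 := _root_.mul_eq_one_comm.1 h
  calc B = B * (A * B') := by rw [h', mul_one]
    _ = B' := by rw [← mul_assoc, h1, one_mul]

theorem gen_inv (h : AH L s r) {z : Module.End K V} (hz : z ∈ L) (hz2 : z * z = 1) {t : K} (ht : t ≠ 0)
    {G G' : Module.End K V} (hG : G = ((1 + t) / 2) • 1 + ((t - 1) / 2) • z) (hGG : G * G' = 1) (X : L) :
    ∃ Y : L, Y.1 = G * X.1 * G' ∧ cub h Y = cub h X := by
  have hG' : G' = ((1 + t⁻¹) / 2) • 1 + ((t⁻¹ - 1) / 2) • z := by
    refine inv_unique hGG ?_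
    rw [hG]
    exact tset_inv hz2 ht
  have hp := mP h.lie hz hz2 X.2
  have h0 := m0 h.lie hz hz2 X.2
  have hm := mQ h.lie hz hz2 X.2
  have hsum := sum_parts (K := K) hz2 X.1
  set a := (1 / 4 : K) • ((1 + z) * X.1 * (1 - z)) with ha
  set b := (1 / 2 : K) • (X.1 + z * X.1 * z) with hb
  set c := (1 / 4 : K) • ((1 - z) * X.1 * (1 + z)) with hc
  have hX : X = (⟨a, hp.1⟩ : L) + ⟨b, h0.1⟩ + ⟨c, hm.1⟩ := Subtype.ext hsum
  refine ⟨t • (⟨a, hp.1⟩ : L) + ⟨b, h0.1⟩ + t⁻¹ • ⟨c, hm.1⟩, ?_, ?_⟩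
  · show t • a + b + t⁻¹ • c = G * X.1 * G'
    have ea : G * a = t • a := by
      rw [hG, add_mul, smul_mul_assoc, smul_mul_assoc, one_mul, hp.2.1, ← add_smul]
      congr 1
      ring
    have ea' : a * G' = a := by
      rw [hG', mul_add, mul_smul_comm, mul_smul_comm, mul_one, hp.2.2, smul_neg, ← sub_eq_add_neg, ← sub_smul]
      have : (1 + t⁻¹) / 2 - (t⁻¹ - 1) / 2 = 1 := by ring
      rw [this, one_smul]
    have ec : G * c = c := by
      rw [hG, add_mul, smul_mul_assoc, smul_mul_assoc, one_mul, hm.2.1, smul_neg, ← sub_eq_add_neg, ← sub_smul]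
      have : (1 + t) / 2 - (t - 1) / 2 = 1 := by ring
      rw [this, one_smul]
    have ec' : c * G' = t⁻¹ • c := by
      rw [hG', mul_add, mul_smul_comm, mul_smul_comm, mul_one, hm.2.2, ← add_smul]
      congr 1
      ring
    have eb : G * b = b * G := by
      have e0 : z * b = b * z := h0.2
      rw [hG, add_mul, mul_add, smul_mul_assoc, smul_mul_assoc, mul_smul_comm ((1 + t) / 2) b,
        mul_smul_comm ((t - 1) / 2) b, one_mul, mul_one, e0]
    rw [hsum, mul_add, mul_add, add_mul, add_mul, ea, eb, ec, smul_mul_assoc, ea', mul_assoc, hGG, mul_one, ec']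
  · have hcomm : ∀ {w : Module.End K V} (hw : w ∈ L) {d : K}, z * w - w * z = d • w →
        brL h.lie ⟨z, hz⟩ ⟨w, hw⟩ = d • ⟨w, hw⟩ := by
      intro w hw d hd
      exact Subtype.ext hd
    rw [cub_wt h (hcomm hp.1 (d := 2) ?_) (hcomm h0.1 (d := 0) ?_) (hcomm hm.1 (d := -2) ?_) ht, ← hX]
    · rw [hp.2.1, hp.2.2, two_smul, sub_neg_eq_add]
    · rw [h0.2, sub_self, zero_smul]
    · rw [hm.2.1, hm.2.2, neg_smul, two_smul]
      abel

theorem clo_inv (h : AH L s r) {G : Module.End K V} (hG : G ∈ Submonoid.closure (tset L)) :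
    ∃ G', G * G' = 1 ∧ ∀ X : L, ∃ Y : L, Y.1 = G * X.1 * G' ∧ cub h Y = cub h X := by
  induction hG using Submonoid.closure_induction with
  | mem G hG =>
    obtain ⟨z, hz, hz2, t, ht, rfl⟩ := hG
    exact ⟨_, tset_inv hz2 ht, fun X => gen_inv h hz hz2 ht rfl (tset_inv hz2 ht) X⟩
  | one => exact ⟨1, one_mul 1, fun X => ⟨X, by rw [one_mul, mul_one], rfl⟩⟩
  | mul A B _ _ hA hB =>
    obtain ⟨A', hAA, hA'⟩ := hA
    obtain ⟨B', hBB, hB'⟩ := hB
    refine ⟨B' * A', ?_, fun X => ?_⟩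
    · calc A * B * (B' * A') = A * (B * B') * A' := by simp only [mul_assoc]
        _ = 1 := by rw [hBB, mul_one, hAA]
    · obtain ⟨Y, hY, hYX⟩ := hB' X
      obtain ⟨Z, hZ, hZY⟩ := hA' Y
      refine ⟨Z, ?_, hZY.trans hYX⟩
      rw [hZ, hY]
      simp only [mul_assoc]

theorem cub_s (h : AH L s r) : cub h ⟨s, h.s_mem⟩ =
    (2 * (finrank K (Lm L s) : K) / (finrank K (Lm L s) + 1)) ^ 3 +
      (finrank K (Lm L s) : K) * (2 * (finrank K (Lm L s) : K) / (finrank K (Lm L s) + 1) - 2) ^ 3 := by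
  have hs0 : s ∈ L0 L s := ⟨h.s_mem, rfl⟩
  have h1 : rho h ⟨s, h.s_mem⟩ = opD h.lie s ⟨s, hs0⟩ := rho_0 h ⟨s, hs0⟩
  have h2 : adQ h.lie s ⟨s, hs0⟩ = (-2 : K) • 1 := by
    refine LinearMap.ext fun w => Subtype.ext ?_
    rw [adQ_apply]
    show s * w.1 - w.1 * s = (-2 : K) • w.1
    rw [w.2.2.1, w.2.2.2, neg_smul, two_smul]
    abel
  have hne : (finrank K (Lm L s) : K) + 1 ≠ 0 := by
    have : ((finrank K (Lm L s) + 1 : ℕ) : K) ≠ 0 := Nat.cast_ne_zero.2 (Nat.succ_ne_zero _)
    push_cast at this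
    exact this
  have h3 : lam h.lie s ⟨s, hs0⟩ = 2 * (finrank K (Lm L s) : K) / (finrank K (Lm L s) + 1) := by
    unfold lam
    rw [LinearMap.smul_apply, LinearMap.comp_apply, h2, map_smul, LinearMap.trace_one, smul_eq_mul, smul_eq_mul]
    field_simp
  set l : K := 2 * (finrank K (Lm L s) : K) / (finrank K (Lm L s) + 1) with hl
  have h4 : rho h ⟨s, h.s_mem⟩ = LinearMap.prodMap (l • (1 : Module.End K K)) ((l - 2) • (1 : Module.End K (Lm L s))) := by
    rw [h1]
    refine LinearMap.ext fun w => ?_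
    rw [opD_apply, h2, h3]
    refine Prod.ext rfl ?_
    show (-2 : K) • w.2 + l • w.2 = (l - 2) • w.2
    rw [← add_smul]
    congr 1
    ring
  have h5 : rho h ⟨s, h.s_mem⟩ * rho h ⟨s, h.s_mem⟩ * rho h ⟨s, h.s_mem⟩ =
      LinearMap.prodMap ((l ^ 3) • (1 : Module.End K K)) (((l - 2) ^ 3) • (1 : Module.End K (Lm L s))) := by
    rw [h4]
    refine LinearMap.ext fun w => Prod.ext ?_ ?_
    · show l • (l • (l • w.1)) = (l ^ 3) • w.1
      rw [smul_smul, smul_smul]
      congr 1
      ring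
    · show (l - 2) • ((l - 2) • ((l - 2) • w.2)) = ((l - 2) ^ 3) • w.2
      rw [smul_smul, smul_smul]
      congr 1
      ring
  unfold cub tri
  rw [h5, LinearMap.trace_prodMap', map_smul, map_smul, LinearMap.trace_one, LinearMap.trace_one, finrank_self,
    Nat.cast_one, smul_eq_mul, smul_eq_mul]
  ring

/-- **An involution is not conjugate to its negative.** -/
theorem no_flip (h : AH L s r) (hm : 2 ≤ finrank K (Lm L s)) {G G' : Module.End K V}
    (hG : G ∈ Submonoid.closure (tset L)) (hGG : G * G' = 1) : G * s * G' ≠ -s := by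
  intro hflip
  obtain ⟨G₁, hG₁, hinv⟩ := clo_inv h hG
  obtain rfl := inv_unique hG₁ hGG
  obtain ⟨Y, hY, hYs⟩ := hinv ⟨s, h.s_mem⟩
  have hY' : Y = (-1 : K) • ⟨s, h.s_mem⟩ := Subtype.ext (by
    rw [hY, hflip]
    show -s = (-1 : K) • s
    rw [neg_one_smul])
  have h1 : cub h ((-1 : K) • ⟨s, h.s_mem⟩) = -cub h ⟨s, h.s_mem⟩ := by
    unfold cub
    rw [tri_smul1, tri_smul2, tri_smul3]
    ring
  rw [hY', h1] at hYs
  have h2 : cub h ⟨s, h.s_mem⟩ = 0 := neg_eq_self.1 hYs
  rw [cub_s] at h2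
  set m : K := (finrank K (Lm L s) : K) with hmdef
  have hne : m + 1 ≠ 0 := by
    have : ((finrank K (Lm L s) + 1 : ℕ) : K) ≠ 0 := Nat.cast_ne_zero.2 (Nat.succ_ne_zero _)
    push_cast at this
    exact this
  have hm0 : m ≠ 0 := by
    rw [hmdef, Nat.cast_ne_zero]
    omega
  have hm1 : m - 1 ≠ 0 := by
    rw [sub_ne_zero, hmdef, Ne, Nat.cast_eq_one]
    omega
  have h3 : (2 * m / (m + 1)) ^ 3 + m * (2 * m / (m + 1) - 2) ^ 3 = 8 * m * (m - 1) / (m + 1) ^ 2 := by
    field_simp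
    ring
  rw [h3, div_eq_zero_iff] at h2
  rcases h2 with h2 | h2
  · rcases mul_eq_zero.1 h2 with h4 | h4
    · rcases mul_eq_zero.1 h4 with h5 | h5
      · norm_num at h5
      · exact hm0 h5
    · exact hm1 h4
  · exact hne (pow_eq_zero_iff (two_ne_zero) |>.1 h2)

end Pool.Agent.H86K
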