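import Pool.Agent.Lib.H86K.K5
import Pool.Agent.Lib.H76V.VA5

/-!
# K6: a flipped involution: the component is full
-/

set_option autoImplicit false
set_option linter.unusedSectionVars false
namespace Pool.Agent.H86K
open Module Matrix Pool.Agent.H53Toric Pool.Agent.H49M
open Pool.Agent.H76T (IsIdeal Fam)
open Pool.Agent.H76V (Cmp)

/-- The data of the binomial case. -/
theorem ah_of {K : Type*} [Field K] [CharZero K] [IsAlgClosed K] {V : Type*} [AddCommGroup V] [Module K V]
    [FiniteDimensional K V] [Nontrivial V] {L : Submodule K (Module.End K V)} {ω : V →ₗ[K] V →ₗ[K] K}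
    {adj : Module.End K V →ₗ[K] Module.End K V} (h : Core L ω adj) {s : Module.End K V} (hs : s ∈ L)
    (hs2 : s * s = 1) (hnot : ¬ ∀ X : Module.End K V, adj X = -X → X ∈ L) (hpow : ∀ m : ℕ, finrank K V ≠ 2 ^ m) :
    ∃ r : K, AH L s r ∧ 2 ≤ finrank K (Lm L s) := by
  obtain ⟨e, f, F, hall, h2⟩ := alpha_at h hs hs2 hnot hpow
  have hr0 : (finrank K (LinearMap.range e) : K) ≠ 0 := by
    rw [Nat.cast_ne_zero]
    intro h0
    exact F.e_ne (LinearMap.range_eq_bot.1 (Submodule.finrank_eq_zero.1 h0))
  refine ⟨(finrank K (LinearMap.range e) : K), ⟨h.lie, hs, hs2, fun x y => ?_, fun x y => ?_⟩, h2⟩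
  · have h3 := (K3_trace h F hall x.2 y.2).1
    rw [bet_apply, ← smul_smul, ← h3, smul_smul, inv_mul_cancel₀ hr0, one_smul]
  · have h3 := (K3_trace h F hall x.2 y.2).2
    rw [bet_apply, ← smul_smul, ← h3, smul_smul, inv_mul_cancel₀ hr0, one_smul]

variable {κ : Type*} [Fintype κ] [DecidableEq κ] {K : Type*} [Field K]
variable [CharZero K] {L : Submodule K (Module.End K (κ → K))} {J : Matrix κ κ K}
variable [IsAlgClosed K] [Nonempty κ]

theorem core_of (h : Cmp L J) {I : Fin 1 → Submodule K (Module.End K (κ → K))} (hF : Fam L I) :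
    H49M.Core L (om J) (adjE J) := by
  have hL : I 0 = L := by
    rw [← hF.sup]
    apply le_antisymm
    · exact le_iSup I 0
    · apply iSup_le
      intro j
      rw [Subsingleton.elim j 0]
  exact
    { lie := h.lie
      irr := h.irr
      simple := fun M hM hM' => by
        have h1 := hF.min 0 M ⟨hM, hM'⟩ (by rw [hL]; exact hM)
        rwa [hL] at h1
      alt := om_alt h.Jt
      nd := by
        intro v hv
        apply om_nd h.Jd
        intro w
        rw [omega_antisymm (om_alt h.Jt), hv, neg_zero]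
      spec := H49M.C0_spec h.Jd
      skew := h.skew }

/-- **A flipped involution.** -/
theorem flip_full (h : Cmp L J) {I : Fin 1 → Submodule K (Module.End K (κ → K))} (hF : Fam L I)
    {y : Module.End K (κ → K)} (hy : y ∈ L) (hy2 : y * y = 1) (hpow : ∀ m : ℕ, Fintype.card κ ≠ 2 ^ m)
    {G G' : Module.End K (κ → K)} (hG : G ∈ Submonoid.closure (tset L)) (hGG : G * G' = 1)
    (hflip : G * y * G' = -y) {X : Module.End K (κ → K)} (hX : adjE J X = -X) : X ∈ L := by
  by_contra hX'
  have hcore := core_of h hF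
  obtain ⟨r, hAH, hm⟩ := ah_of hcore hy hy2 (fun hall => hX' (hall X hX)) fun m => by
    rw [Module.finrank_fintype_fun_eq_card]
    exact hpow m
  exact no_flip hAH hm hG hGG hflip

end Pool.Agent.H86K
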