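import Pool.Agent.Lib.H45K.K6
import Pool.Agent.Lib.H76Q.E5

/-!
# K7: a prime where a Frobenius element acts as the complex conjugation
-/

set_option autoImplicit false
set_option linter.unusedSectionVars false
namespace Pool.Agent.H86K
open Pool.Agent.H76Q

theorem exists_flip {Ω : Type} [Field Ω] [CharZero Ω] [IsAlgClosed Ω] [Algebra.IsAlgebraic ℚ Ω]
    (c : Ω ≃+* Ω) (hc : ∀ x, c (c x) = x) (T : Finset Ω) (hT : ∀ x ∈ T, c x ∈ T) {x₀ : Ω} (hx₀ : x₀ ∈ T)
    (hne : c x₀ ≠ x₀) {N : Set ℕ} (hN : N.Finite) :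
    ∃ (l : ℕ) (_ : Fact l.Prime), l ∉ N ∧ ∃ (i : Ω →+* AlgebraicClosure ℚ_[l])
      (t : AlgebraicClosure ℚ_[l] ≃ₐ[ℚ_[l]] AlgebraicClosure ℚ_[l]),
      (∀ x ∈ IntermediateField.adjoin ℚ (T : Set Ω), t (i x) = i (c x)) ∧
      ∀ x ∈ IntermediateField.adjoin ℚ (T : Set Ω), c x = x →
        ∃ y : ℚ_[l], i x = algebraMap ℚ_[l] (AlgebraicClosure ℚ_[l]) y := by
  set E := IntermediateField.adjoin ℚ (T : Set Ω) with hE
  have hfixE : ∀ s : Ω ≃+* Ω, (∀ x ∈ T, s x = x) → ∀ x ∈ E, s x = x := by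
    intro s hs x hx
    induction hx using IntermediateField.adjoin_induction with
    | mem x hx => exact hs x hx
    | algebraMap x => rw [eq_ratCast, map_ratCast]
    | add x y _ _ hx hy => rw [map_add, hx, hy]
    | inv x _ hx => rw [map_inv₀, hx]
    | mul x y _ _ hx hy => rw [map_mul, hx, hy]
  have hcE : ∀ x ∈ E, c x ∈ E := by
    intro x hx
    induction hx using IntermediateField.adjoin_induction with
    | mem x hx => exact IntermediateField.subset_adjoin ℚ _ (hT x hx)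
    | algebraMap x =>
      rw [eq_ratCast, map_ratCast, ← eq_ratCast (algebraMap ℚ Ω)]
      exact E.algebraMap_mem x
    | add x y _ _ hx hy => rw [map_add]; exact E.add_mem hx hy
    | inv x _ hx => rw [map_inv₀]; exact E.inv_mem hx
    | mul x y _ _ hx hy => rw [map_mul]; exact E.mul_mem hx hy
  let Γ : Subgroup (Ω ≃+* Ω) :=
    { carrier := {s | ∀ x ∈ E, c x = x → s x = x}
      mul_mem' := by
        intro s s' h h' x hx hcx
        show s (s' x) = x
        rw [h' x hx hcx, h x hx hcx]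
      one_mem' := fun x _ _ => rfl
      inv_mem' := by
        intro s h x hx hcx
        show s.symm x = x
        rw [RingEquiv.symm_apply_eq]
        exact (h x hx hcx).symm }
  have hΓ : ∀ s, s ∈ Γ ↔ ∀ x ∈ E, c x = x → s x = x := fun s => Iff.rfl
  have hcΓ : c ∈ Γ := fun x _ hcx => hcx
  have hx₀E : x₀ ∈ E := IntermediateField.subset_adjoin ℚ _ hx₀
  set d : Ω := x₀ - c x₀ with hd
  have hdE : d ∈ E := E.sub_mem hx₀E (hcE _ hx₀E)
  have hcd : c d = -d := by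
    rw [hd, map_sub, hc]
    ring
  have hd0 : d ≠ 0 := fun h => hne (sub_eq_zero.1 h).symm
  have hkey : ¬ ∀ (l : ℕ) [Fact l.Prime], l ∉ N → ∀ i : Ω →+* AlgebraicClosure ℚ_[l],
      Dec ℚ_[l] Γ i → (∀ r ∈ (∅ : Finset Ω), SqIn ℚ_[l] (i r)) → SqIn ℚ_[l] (i (d ^ 2)) := by
    intro hall
    obtain ⟨R', hR', c', hc', hdc⟩ := H45K.cheb (∅ : Finset Ω) N hN Γ
      ⟨T, fun s hs x hx _ => hfixE s hs x hx⟩ (fun s _ r hr => absurd hr (Finset.notMem_empty r)) (d ^ 2)
      (fun s hs => (hΓ s).1 hs _ (by rw [sq]; exact E.mul_mem hdE hdE) (by rw [map_pow, hcd, neg_sq])) hall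
    rw [Finset.subset_empty.1 hR', Finset.prod_empty, one_mul] at hdc
    have h1 := hc' c hcΓ
    rcases sq_eq_sq_iff_eq_or_eq_neg.1 hdc with h2 | h2
    · rw [← h2, hcd] at h1
      exact hd0 (neg_eq_self.1 h1)
    · have h3 : c' = -d := by rw [h2, neg_neg]
      rw [h3, map_neg, hcd, neg_neg] at h1
      exact hd0 (self_eq_neg.1 h1)
  push Not at hkey
  obtain ⟨l, hl, hlN, i, hDec, -, hnsq⟩ := hkey
  have hrat : ∀ x ∈ E, c x = x → ∃ y : ℚ_[l], i x = algebraMap ℚ_[l] (AlgebraicClosure ℚ_[l]) y := by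
    intro x hx hcx
    refine fixed_mem fun t => ?_
    obtain ⟨s, hs⟩ := exists_res i t.toRingEquiv
    have hsΓ : s ∈ Γ := hDec t s hs
    exact (hs x).trans (by rw [(hΓ s).1 hsΓ x hx hcx])
  obtain ⟨t, ht⟩ : ∃ t : AlgebraicClosure ℚ_[l] ≃ₐ[ℚ_[l]] AlgebraicClosure ℚ_[l], t (i d) ≠ i d := by
    by_contra hcon
    push Not at hcon
    obtain ⟨y, hy⟩ := fixed_mem hcon
    apply hnsq
    exact ⟨y, by rw [map_pow, hy]⟩
  obtain ⟨s, hs⟩ := exists_res i t.toRingEquiv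
  have hsΓ : s ∈ Γ := hDec t s hs
  have hs' : ∀ y, t (i y) = i (s y) := hs
  have hsd : s d = -d := by
    have h1 : s (d ^ 2) = d ^ 2 := (hΓ s).1 hsΓ _ (by rw [sq]; exact E.mul_mem hdE hdE) (by rw [map_pow, hcd, neg_sq])
    rw [map_pow] at h1
    rcases sq_eq_sq_iff_eq_or_eq_neg.1 h1 with h2 | h2
    · exfalso
      apply ht
      rw [hs', h2]
    · exact h2
  refine ⟨l, hl, hlN, i, t, fun x hx => ?_, hrat⟩
  rw [hs']
  congr 1
  have h2E : (2 : Ω) ≠ 0 := two_ne_zero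
  have h1 : s (x + c x) = x + c x := (hΓ s).1 hsΓ _ (E.add_mem hx (hcE x hx)) (by rw [map_add, hc, add_comm])
  have h2 : s ((x - c x) / d) = (x - c x) / d := by
    refine (hΓ s).1 hsΓ _ (E.div_mem (E.sub_mem hx (hcE x hx)) hdE) ?_
    rw [map_div₀, map_sub, hc, hcd]
    rw [div_neg, ← neg_div, neg_sub]
  have h3 : s (x - c x) = -(x - c x) := by
    rw [map_div₀, hsd, div_neg, neg_eq_iff_eq_neg, ← neg_div, div_left_inj' hd0] at h2
    exact h2
  have h4 : (2 : Ω) * s x = 2 * c x := by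
    have h5 : s (x + c x) + s (x - c x) = 2 * s x := by
      rw [← map_add]
      have : x + c x + (x - c x) = 2 * x := by ring
      rw [this, map_mul, map_ofNat]
    rw [← h5, h1, h3]
    ring
  exact mul_left_cancel₀ h2E h4

end Pool.Agent.H86K
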