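import Pool.Agent.Lib.H86K.K6
import Pool.Agent.Lib.H76Q.BL3
import Pool.Agent.Lib.H76Q.C6

/-!
# K8: one block, all odd functions: the component is full
-/

set_option autoImplicit false
set_option linter.unusedSectionVars false
namespace Pool.Agent.H86K
open Module Matrix Pool.Agent.H53Toric Pool.Agent.H49M Pool.Agent.H76P Pool.Agent.H76Q
open Pool.Agent.H76T (IsIdeal Fam)
open Pool.Agent.H76V (Cmp)

variable {κ : Type*} {K : Type*} [Field K] [CharZero K] [Fintype κ] [DecidableEq κ]
  {L : Submodule K (Module.End K (κ → K))} {J : Matrix κ κ K} [IsAlgClosed K] [Nonempty κ]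
  {Y : Submodule ℚ (κ → ℚ)}

/-- One block: the component is simple. -/
theorem simple_of_one (h : TS L J) (hY : Yo L = Y) (h1 : IsBlock (1 : Module.End ℚ Y))
    (two : ∀ k : ℕ, 4 ≤ k → Fintype.card κ ≠ 2 ^ k) :
    ∃ I : Fin 1 → Submodule K (Module.End K (κ → K)), Fam L I := by
  classical
  subst hY
  obtain ⟨m, I, hF⟩ := Pool.Agent.H76T.exists_fam h.cmp.lie h.cmp.irr h.cmp.tr
  rcases Nat.lt_or_ge m 2 with hm | hm
  · interval_cases m
    · exfalso
      have hL : L = ⊥ := by
        rw [← hF.sup]
        exact iSup_of_empty _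
      have h2 : ∀ y ∈ L, y * y = 1 → False := by
        intro y hy hy2
        rw [hL, Submodule.mem_bot] at hy
        rw [hy, mul_zero] at hy2
        exact zero_ne_one hy2
      -- every operator is scalar, hence the space has dimension one, which contradicts the symplectic form
      have h3 : Subsingleton κ := by
        refine ⟨fun a b => ?_⟩
        by_contra hab
        obtain ⟨f, hf, hfab⟩ := h.sep a b hab
        obtain ⟨c', hc'⟩ := h.cmp.gen (dq f) fun y hy hy2 => (h2 y hy hy2).elim
        apply hfab
        have h4 := congrFun (congrArg (fun T : Module.End K (κ → K) => T fun _ => 1) hc') a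
        have h5 := congrFun (congrArg (fun T : Module.End K (κ → K) => T fun _ => 1) hc') b
        unfold dq at h4 h5
        simp only [dg_apply, LinearMap.smul_apply, Module.End.one_apply, Pi.smul_apply, smul_eq_mul, mul_one] at h4 h5
        have h6 : ((f a : ℚ) : K) = ((f b : ℚ) : K) := by rw [h4, h5]
        exact_mod_cast h6
      obtain ⟨a⟩ := ‹Nonempty κ›
      have h4 : J.det = J a a := by
        have : Unique κ := ⟨⟨a⟩, fun b => Subsingleton.elim b a⟩
        exact Matrix.det_eq_elem_of_subsingleton J a
      have h5 : J a a = -J a a := by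
        have h6 := congrFun (congrFun h.cmp.Jt a) a
        rwa [Matrix.transpose_apply, Matrix.neg_apply] at h6
      have h6 : J a a = 0 := self_eq_neg.1 h5
      have h7 := h.cmp.Jd
      rw [h4, h6] at h7
      exact not_isUnit_zero h7
    · exact ⟨I, hF⟩
  · exfalso
    have hs : Spans (pt L) := pt_spans h.cmp
    have hij : (⟨0, by omega⟩ : Fin m) ≠ ⟨1, by omega⟩ := by
      intro e
      exact absurd (congrArg Fin.val e) (by norm_num)
    set i : Fin m := ⟨0, by omega⟩ with hi
    set j : Fin m := ⟨1, by omega⟩ with hj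
    -- an atom equal to one is impossible
    have caseA : Atom (pt L) (1 : Module.End ℚ (Module.Dual ℚ (Yo L))) → False := by
      intro hA
      obtain ⟨P, hP1, hP2, hP3, hPS⟩ := exists_proj h.cmp hF i
      have g1 : P.dualMap = 1 := by
        rcases hA.2.2 P.dualMap hPS (mul_one _) with h2 | h2
        · exfalso
          obtain ⟨f, hf, hf0, hfi⟩ := h.exists_diag hF i
          have h3 : P = 0 := dualMap_inj (by rw [h2, dualMap_zero])
          have h4 := hP2 ⟨f, hf⟩ hfi
          rw [h3, LinearMap.zero_apply] at h4
          exact hf0 (congrArg Subtype.val h4).symm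
        · exact h2
      have g2 : P = 1 := dualMap_inj (by rw [g1, dualMap_one])
      obtain ⟨f, hf, hf0, hfi⟩ := h.exists_diag hF j
      have h3 := hP3 j (Ne.symm hij) ⟨f, hf⟩ hfi
      rw [g2, Module.End.one_apply] at h3
      exact hf0 (congrArg Subtype.val h3)
    rcases h1 with ⟨h8, hA⟩ | ⟨-, hA, hc⟩ | ⟨h8, hS, -, hat⟩
    · rw [dualMap_one] at hA
      exact caseA hA
    · rw [dualMap_one] at hA
      exact caseA hA
    · obtain ⟨s, hsm, hsum⟩ := atoms_sum hs
      have hcard : Fintype.card κ = 2 ^ s.card := by
        rw [card_prod hs h.pt_inj (s := s) (fun q hq => (hsm q).1 hq) hsum]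
        rw [← Finset.prod_const]
        refine Finset.prod_congr rfl fun q hq => ?_
        refine (hat q ((hsm q).1 hq)).1 ?_
        rw [dualMap_one, mul_one]
      obtain ⟨a, d, ha, hd, hV, ha2, hd2, -, -⟩ := h.cmp.dims hF (i := i) (j := j) hij
      rw [Module.finrank_fintype_fun_eq_card] at hV
      have hs4 : s.card < 4 := by
        by_contra hcon
        push Not at hcon
        exact two _ hcon hcard
      have hs3 : s.card ≠ 3 := by
        intro e
        rw [e] at hcard
        exact h8 hcard
      have hle : Fintype.card κ ≤ 4 := by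
        rw [hcard]
        calc 2 ^ s.card ≤ 2 ^ 2 := Nat.pow_le_pow_right (by norm_num) (by omega)
          _ = 4 := by norm_num
      have hpos : 0 < Fintype.card κ := Fintype.card_pos
      have ha0 : a = 2 := by
        obtain ⟨a', rfl⟩ := ha2
        obtain ⟨d', rfl⟩ := hd2
        have ha' : 0 < a' := by
          rcases Nat.eq_zero_or_pos a' with e | e
          · rw [e] at hV
            simp at hV
          · exact e
        have hd' : 0 < d' := by
          rcases Nat.eq_zero_or_pos d' with e | e
          · rw [e] at hV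
            simp at hV
          · exact e
        have h5 : a' * d' ≤ 1 := by
          have h6 : (a' + a') * (d' + d') ≤ 4 := by rw [← hV]; exact hle
          nlinarith
        have h6 : a' ≤ 1 := by nlinarith
        omega
      obtain ⟨u, hu, hu0, hu2⟩ := h.cmp.nil hF j
      have h5 : 4 ∣ finrank K (LinearMap.range u) := h.cmp.four hF hij ha ha0 hu
      have h6 : finrank K (LinearMap.range u) ≤ finrank K (LinearMap.ker u) := by
        refine Submodule.finrank_mono ?_
        rintro _ ⟨x, rfl⟩
        rw [LinearMap.mem_ker]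
        exact congrArg (fun T : Module.End K (κ → K) => T x) hu2
      have h7 := LinearMap.finrank_range_add_finrank_ker u
      rw [Module.finrank_fintype_fun_eq_card] at h7
      have h8 : finrank K (LinearMap.range u) = 0 := by
        obtain ⟨c, hc⟩ := h5
        omega
      apply hu0
      rw [Submodule.finrank_eq_zero] at h8
      exact LinearMap.range_eq_bot.1 h8

/-- Polynomials of the bracket with a diagonal element. -/
theorem poly_diag (hl : IsLie L) {f : κ → K} (hf : dg f ∈ L) (p : Polynomial K) :
    ∀ X ∈ L, ∃ Z ∈ L, ∀ a b, LinearMap.toMatrix' Z a b = p.eval (f a - f b) * LinearMap.toMatrix' X a b := by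
  induction p using Polynomial.induction_on' with
  | add p q hp hq =>
    intro X hX
    obtain ⟨Z, hZ, h1⟩ := hp X hX
    obtain ⟨Z', hZ', h2⟩ := hq X hX
    refine ⟨Z + Z', L.add_mem hZ hZ', fun a b => ?_⟩
    rw [map_add, Matrix.add_apply, h1, h2, Polynomial.eval_add, add_mul]
  | monomial n c =>
    induction n with
    | zero =>
      intro X hX
      refine ⟨c • X, L.smul_mem c hX, fun a b => ?_⟩
      rw [map_smul, Matrix.smul_apply, Polynomial.eval_monomial, pow_zero, mul_one, smul_eq_mul]
    | succ n ih =>
      intro X hX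
      obtain ⟨Z, hZ, h1⟩ := ih X hX
      refine ⟨dg f * Z - Z * dg f, hl _ hf _ hZ, fun a b => ?_⟩
      rw [map_sub, Matrix.sub_apply, c6_left, c6_right, h1, Polynomial.eval_monomial, Polynomial.eval_monomial,
        pow_succ]
      ring

/-- If all odd functions are diagonal elements, there is an element of small rank. -/
theorem exists_small (h : Cmp L J) {bar : Equiv.Perm κ} (hbb : ∀ k, bar (bar k) = k) (hbne : ∀ k, bar k ≠ k)
    (hodd : ∀ f : κ → ℚ, (∀ k, f (bar k) = -f k) → dq f ∈ L) (hn : 3 ≤ Fintype.card κ) :
    ∃ N ∈ L, N * N = 0 ∧ N ≠ 0 ∧ finrank K (LinearMap.range N) ≤ 2 := by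
  classical
  obtain ⟨k₀⟩ := ‹Nonempty κ›
  -- a nonzero entry outside the plane of `k₀`
  obtain ⟨X, hX, k, l, hk1, hk2, hlS, hXkl⟩ : ∃ X ∈ L, ∃ k l, k ≠ k₀ ∧ k ≠ bar k₀ ∧ (l = k₀ ∨ l = bar k₀) ∧
      LinearMap.toMatrix' X k l ≠ 0 := by
    by_contra hcon
    push Not at hcon
    let W : Submodule K (κ → K) :=
      { carrier := {v | ∀ a, a ≠ k₀ → a ≠ bar k₀ → v a = 0}
        add_mem' := fun {u v} hu hv a h1 h2 => by
          rw [Pi.add_apply, hu a h1 h2, hv a h1 h2, add_zero]
        zero_mem' := fun a _ _ => rfl
        smul_mem' := fun c v hv a h1 h2 => by rw [Pi.smul_apply, hv a h1 h2, smul_zero] }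
    have hW : W = ⊥ ∨ W = ⊤ := by
      refine h.irr W fun X hX w hw a h1 h2 => ?_
      have h3 : X w a = ∑ b, LinearMap.toMatrix' X a b * w b := by
        have h4 : X w = LinearMap.toMatrix' X *ᵥ w := by
          rw [← Matrix.toLin'_apply, Matrix.toLin'_toMatrix']
        rw [h4]
        rfl
      rw [h3]
      refine Finset.sum_eq_zero fun b _ => ?_
      by_cases hb : b = k₀ ∨ b = bar k₀
      · rw [hcon X hX a b h1 h2 hb, zero_mul]
      · push Not at hb
        rw [hw b hb.1 hb.2, mul_zero]
    rcases hW with hW | hW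
    · have h1 : (Pi.single k₀ 1 : κ → K) ∈ W := by
        intro a ha _
        rw [Pi.single_eq_of_ne ha]
      rw [hW, Submodule.mem_bot] at h1
      have h2 := congrFun h1 k₀
      rw [Pi.single_eq_same] at h2
      exact one_ne_zero h2
    · obtain ⟨a, ha1, ha2⟩ : ∃ a, a ≠ k₀ ∧ a ≠ bar k₀ := by
        by_contra hcon
        push Not at hcon
        have h1 : Fintype.card κ ≤ ({k₀, bar k₀} : Finset κ).card := by
          rw [← Finset.card_univ]
          refine Finset.card_le_card fun a _ => ?_
          rw [Finset.mem_insert, Finset.mem_singleton]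
          by_cases h2 : a = k₀
          · exact Or.inl h2
          · exact Or.inr (hcon a h2)
        have h2 := Finset.card_le_two (a := k₀) (b := bar k₀)
        omega
      have h1 : (Pi.single a 1 : κ → K) ∈ W := by rw [hW]; exact Submodule.mem_top
      have h2 := h1 a ha1 ha2
      rw [Pi.single_eq_same] at h2
      exact one_ne_zero h2
  have hlk : l ≠ k := by
    rintro rfl
    rcases hlS with h1 | h1
    · exact hk1 h1
    · exact hk2 h1
  have hlbk : l ≠ bar k := by
    intro h1
    rcases hlS with h2 | h2
    · apply hk2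
      rw [← h2, h1, hbb]
    · apply hk1
      have h3 : bar k = bar k₀ := by rw [← h1, h2]
      exact bar.injective h3
  -- the two diagonal elements
  let F : κ → κ → ℚ := fun x a => if a = x then 1 else if a = bar x then -1 else 0
  have hF : ∀ x, dq (F x) ∈ L := by
    intro x
    refine hodd _ fun a => ?_
    show (if bar a = x then (1 : ℚ) else if bar a = bar x then -1 else 0) =
      -(if a = x then (1 : ℚ) else if a = bar x then -1 else 0)
    by_cases h1 : a = x
    · rw [h1, if_neg (hbne x), if_pos rfl, if_pos rfl]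
    · by_cases h2 : a = bar x
      · rw [h2, hbb, if_pos rfl, if_neg (hbne x), if_pos rfl, neg_neg]
      · have h3 : bar a ≠ x := by
          intro h4
          apply h2
          rw [← h4, hbb]
        have h4 : bar a ≠ bar x := fun h5 => h1 (bar.injective h5)
        rw [if_neg h3, if_neg h4, if_neg h1, if_neg h2, neg_zero]
  have hFv : ∀ x a, F x a = 1 ∨ F x a = -1 ∨ F x a = 0 := by
    intro x a
    show (if a = x then (1 : ℚ) else if a = bar x then -1 else 0) = 1 ∨ _ ∨ _
    by_cases h1 : a = x
    · left; rw [if_pos h1]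
    · by_cases h2 : a = bar x
      · right; left
        show (if a = x then (1 : ℚ) else if a = bar x then -1 else 0) = -1
        rw [if_neg h1, if_pos h2]
      · right; right
        show (if a = x then (1 : ℚ) else if a = bar x then -1 else 0) = 0
        rw [if_neg h1, if_neg h2]
  have hF1 : ∀ x a, F x a = 1 → a = x := by
    intro x a h1
    by_contra h2
    have h3 : F x a = if a = bar x then -1 else 0 := if_neg h2
    rw [h3] at h1
    split_ifs at h1 <;> norm_num at h1
  have hFm : ∀ x a, F x a = -1 → a = bar x := by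
    intro x a h1
    by_contra h2
    have h3 : F x a = if a = x then 1 else 0 := by
      show (if a = x then (1 : ℚ) else if a = bar x then -1 else 0) = _
      rw [if_neg h2]
    rw [h3] at h1
    split_ifs at h1 <;> norm_num at h1
  -- the polynomials
  let p : Polynomial K := Polynomial.C (-(1 / 6 : K)) * ((Polynomial.X + Polynomial.C 2) * (Polynomial.X + Polynomial.C 1) *
    Polynomial.X * (Polynomial.X - Polynomial.C 2))
  let p' : Polynomial K := Polynomial.C ((1 / 6 : K)) * ((Polynomial.X - Polynomial.C 2) * (Polynomial.X - Polynomial.C 1) *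
    Polynomial.X * (Polynomial.X + Polynomial.C 2))
  have hp : ∀ t : K, p.eval t = -(1 / 6) * ((t + 2) * (t + 1) * t * (t - 2)) := by
    intro t
    show Polynomial.eval t (Polynomial.C (-(1 / 6 : K)) * ((Polynomial.X + Polynomial.C 2) * (Polynomial.X + Polynomial.C 1) *
      Polynomial.X * (Polynomial.X - Polynomial.C 2))) = _
    simp only [Polynomial.eval_mul, Polynomial.eval_C, Polynomial.eval_add, Polynomial.eval_sub, Polynomial.eval_X]
  have hp' : ∀ t : K, p'.eval t = (1 / 6) * ((t - 2) * (t - 1) * t * (t + 2)) := by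
    intro t
    show Polynomial.eval t (Polynomial.C ((1 / 6 : K)) * ((Polynomial.X - Polynomial.C 2) * (Polynomial.X - Polynomial.C 1) *
      Polynomial.X * (Polynomial.X + Polynomial.C 2))) = _
    simp only [Polynomial.eval_mul, Polynomial.eval_C, Polynomial.eval_add, Polynomial.eval_sub, Polynomial.eval_X]
  obtain ⟨Z, hZ, hZe⟩ := poly_diag h.lie (f := fun a => (F k a : K)) (hF k) p X hX
  obtain ⟨N, hN, hNe⟩ := poly_diag h.lie (f := fun a => (F l a : K)) (hF l) p' Z hZ
  have hpv : ∀ a b, p.eval ((F k a : K) - (F k b : K)) ≠ 0 → F k a - F k b = 1 := by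
    intro a b h1
    rw [hp] at h1
    rcases hFv k a with e1 | e1 | e1 <;> rcases hFv k b with e2 | e2 | e2 <;> rw [e1, e2] at h1 ⊢ <;>
      first
        | (exfalso; norm_num at h1; done)
        | (norm_num; done)
  have hpv' : ∀ a b, p'.eval ((F l a : K) - (F l b : K)) ≠ 0 → F l a - F l b = -1 := by
    intro a b h1
    rw [hp'] at h1
    rcases hFv l a with e1 | e1 | e1 <;> rcases hFv l b with e2 | e2 | e2 <;> rw [e1, e2] at h1 ⊢ <;>
      first
        | (exfalso; norm_num at h1; done)
        | (norm_num; done)
  -- the entries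
  have hentry : ∀ a b, LinearMap.toMatrix' N a b ≠ 0 → (a = k ∧ b = l) ∨ (a = bar l ∧ b = bar k) := by
    intro a b hab
    rw [hNe, hZe] at hab
    have h1 := left_ne_zero_of_mul hab
    have h2 := left_ne_zero_of_mul (right_ne_zero_of_mul hab)
    have h3 := hpv a b h2
    have h4 := hpv' a b h1
    rcases hFv k a with e1 | e1 | e1
    · left
      have ha := hF1 k a e1
      refine ⟨ha, ?_⟩
      rcases hFv l b with e2 | e2 | e2
      · exact hF1 l b e2
      · exfalso
        rw [e2] at h4
        rcases hFv l a with e3 | e3 | e3 <;> rw [e3] at h4 <;> norm_num at h4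
      · exfalso
        rw [e2] at h4
        have e3 : F l a = -1 := by linarith
        have h5 := hFm l a e3
        rw [ha] at h5
        apply hlbk
        rw [h5, hbb]
    · exfalso
      rw [e1] at h3
      rcases hFv k b with e3 | e3 | e3 <;> rw [e3] at h3 <;> norm_num at h3
    · right
      rw [e1] at h3
      have e2 : F k b = -1 := by linarith
      have hb := hFm k b e2
      refine ⟨?_, hb⟩
      rcases hFv l a with e3 | e3 | e3
      · exfalso
        rw [e3] at h4
        rcases hFv l b with e4 | e4 | e4 <;> rw [e4] at h4 <;> norm_num at h4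
      · exact hFm l a e3
      · exfalso
        rw [e3] at h4
        have e4 : F l b = 1 := by linarith
        have h5 := hF1 l b e4
        apply hlbk
        rw [← h5, hb]
  have hNkl : LinearMap.toMatrix' N k l ≠ 0 := by
    have e1 : F k k = 1 := if_pos rfl
    have e2 : F k l = 0 := by
      show (if l = k then (1 : ℚ) else if l = bar k then -1 else 0) = 0
      rw [if_neg hlk, if_neg hlbk]
    have e3 : F l l = 1 := if_pos rfl
    have e4 : F l k = 0 := by
      show (if k = l then (1 : ℚ) else if k = bar l then -1 else 0) = 0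
      have : k ≠ bar l := by
        intro h5
        apply hlbk
        rw [h5, hbb]
      rw [if_neg (Ne.symm hlk), if_neg this]
    rw [hNe, hZe, hp, hp', e1, e2, e3, e4]
    norm_num
    exact hXkl
  have hbl : bar l ≠ l := hbne l
  refine ⟨N, hN, ?_, ?_, ?_⟩
  · apply LinearMap.toMatrix'.injective
    rw [LinearMap.toMatrix'_mul, map_zero]
    ext a b
    rw [Matrix.mul_apply, Matrix.zero_apply]
    refine Finset.sum_eq_zero fun c _ => ?_
    by_contra h1
    rcases hentry a c (left_ne_zero_of_mul h1) with ⟨-, h2⟩ | ⟨-, h2⟩ <;>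
      rcases hentry c b (right_ne_zero_of_mul h1) with ⟨h3, -⟩ | ⟨h3, -⟩
    · exact hlk (h2.symm.trans h3)
    · exact hbl (h3.symm.trans h2)
    · exact hbne k (h2.symm.trans h3)
    · exact hlk (bar.injective (h3.symm.trans h2))
  · intro h0
    rw [h0, map_zero] at hNkl
    exact hNkl rfl
  · have h1 : LinearMap.range N ≤ Submodule.span K (({Pi.single k 1, Pi.single (bar l) 1} : Finset (κ → K)) : Set (κ → K)) := by
      rintro _ ⟨v, rfl⟩
      have h2 : N v = (N v k) • Pi.single k 1 + (N v (bar l)) • Pi.single (bar l) 1 := by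
        ext a
        rw [Pi.add_apply, Pi.smul_apply, Pi.smul_apply, smul_eq_mul, smul_eq_mul]
        have h3 : ∀ a, N v a = ∑ b, LinearMap.toMatrix' N a b * v b := by
          intro a
          have h4 : N v = LinearMap.toMatrix' N *ᵥ v := by
            rw [← Matrix.toLin'_apply, Matrix.toLin'_toMatrix']
          rw [h4]
          rfl
        have hkbl : k ≠ bar l := by
          intro h5
          apply hlbk
          rw [h5, hbb]
        by_cases ha : a = k
        · rw [ha, Pi.single_eq_same, Pi.single_eq_of_ne hkbl, mul_one, mul_zero, add_zero]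
        · by_cases ha' : a = bar l
          · rw [ha', Pi.single_eq_same, Pi.single_eq_of_ne (Ne.symm hkbl), mul_one, mul_zero, zero_add]
          · rw [Pi.single_eq_of_ne ha, Pi.single_eq_of_ne ha', mul_zero, mul_zero, add_zero, h3]
            refine Finset.sum_eq_zero fun b _ => ?_
            by_contra h5
            rcases hentry a b (left_ne_zero_of_mul h5) with ⟨h6, -⟩ | ⟨h6, -⟩
            · exact ha h6
            · exact ha' h6
      rw [h2]
      refine Submodule.add_mem _ (Submodule.smul_mem _ _ (Submodule.subset_span ?_))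
        (Submodule.smul_mem _ _ (Submodule.subset_span ?_))
      · simp
      · simp
    calc finrank K (LinearMap.range N) ≤ finrank K (Submodule.span K
          (({Pi.single k 1, Pi.single (bar l) 1} : Finset (κ → K)) : Set (κ → K))) := Submodule.finrank_mono h1
      _ ≤ ({Pi.single k 1, Pi.single (bar l) 1} : Finset (κ → K)).card := finrank_span_finset_le_card _
      _ ≤ 2 := Finset.card_le_two

/-- **One block, all odd functions.** -/
theorem full_of_odd (h : TS L J) (hY : Yo L = Y) (h1 : IsBlock (1 : Module.End ℚ Y))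
    (two : ∀ k : ℕ, 4 ≤ k → Fintype.card κ ≠ 2 ^ k)
    {bar : Equiv.Perm κ} (hbb : ∀ k, bar (bar k) = k) (hbne : ∀ k, bar k ≠ k)
    (hodd : ∀ f : κ → ℚ, (∀ k, f (bar k) = -f k) → f ∈ Y)
    {X : Module.End K (κ → K)} (hX : adjE J X = -X) : X ∈ L := by
  obtain ⟨I, hF⟩ := simple_of_one h hY h1 two
  subst hY
  rcases Cmp.simple h.cmp hF with h2 | ⟨n, hn, -, hn2, -⟩ | ⟨k, hk, hk2, hk3, hk4⟩
  · exact h2 X hX
  · rw [Module.finrank_fintype_fun_eq_card] at hn2
    exact absurd hn2 (two n (by omega))
  · exfalso
    rw [Module.finrank_fintype_fun_eq_card] at hk3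
    have h5 : 6 ≤ (k - 1).centralBinom := by
      have h6 : Nat.centralBinom 2 ≤ (k - 1).centralBinom := Nat.centralBinom_strictMono.monotone (by omega)
      have h7 : Nat.centralBinom 2 = 6 := by decide
      omega
    have h6 : (k - 1).centralBinom ≤ k.centralBinom := Nat.centralBinom_strictMono.monotone (by omega)
    obtain ⟨N, hN, hN2, hN0, hr⟩ := exists_small h.cmp hbb hbne (fun f hf => Yo_mem (hodd f hf)) (by omega)
    have h7 := hk4 N hN hN2 hN0
    omega

end Pool.Agent.H86K
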