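import Pool.Agent.Lib.H86K.K7
import Pool.Agent.Lib.H86K.K8
import Pool.Agent.Lib.H76Q.G3
import Pool.Agent.Lib.H76Q.E3

/-!
# K9: fields with a real place: no binomial exceptions
-/

set_option autoImplicit false
set_option linter.unusedSectionVars false
namespace Pool.Agent.H86K
open Module Matrix Polynomial Pool.Agent.H53Toric Pool.Agent.H76P Pool.Agent.H76Q
open Pool.Agent.H76T (IsIdeal Fam Lc)
open Pool.Agent.H76V (Cmp)
open Pool.Agent.H76U (cmp preL IsSplitting)
open Pool.Agent.H76RM (spanK similD)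

section
variable {ι : Type*} [Fintype ι] [DecidableEq ι] {K : Type*} [Field K] [CharZero K]
  [IsAlgClosed K] {J : Matrix ι ι K} {S 𝓗 : Set (Matrix ι ι K)} {e x : Matrix ι ι K} {q : K} {n : ℕ}
  {U : Matrix ι (Fin n) K} {V : Matrix (Fin n) ι K} {d : Fin n → K}
  {Y : Submodule ℚ (Fin n → ℚ)}

/-- The elements of the group are products of one parameter groups. -/
theorem gen_tset (h : Loc J S 𝓗 e x q U V d Y) {g : Matrix ι ι K}
    (hg : g ∈ Submonoid.closure {y | ∃ k ∈ 𝓗, ∃ t : K, t ≠ 0 ∧ y = 1 + (t - 1) • k}) :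
    phi (cmp U V g) ∈ Submonoid.closure (tset (Lc J S U V)) := by
  refine Submonoid.closure_induction (motive := fun m _ =>
    phi (cmp U V m) ∈ Submonoid.closure (tset (Lc J S U V))) ?_ ?_ ?_ hg
  · rintro _ ⟨k, hk, t, ht, rfl⟩
    obtain ⟨hkk, hke, -, hkL⟩ := h.par k hk
    have h2 : ((2 : K) • k - 1) * e = e * ((2 : K) • k - 1) := by
      rw [sub_mul, mul_sub, one_mul, mul_one, smul_mul_assoc, mul_smul_comm, hke]
    have h3 : ((2 : K) • k - 1) * ((2 : K) • k - 1) = 1 := by
      simp only [sub_mul, mul_sub, smul_mul_assoc, mul_smul_comm, hkk, mul_one, one_mul]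
      module
    have hyy : phi (cmp U V ((2 : K) • k - 1)) * phi (cmp U V ((2 : K) • k - 1)) = 1 := by
      rw [← map_mul, ← H76U.cmp_mul h.UV h.VU h2, h3, H76U.cmp_one h.UV h.VU, map_one]
    have h4 : phi (cmp U V (1 + (t - 1) • k)) =
        ((1 + t) / 2) • (1 : Module.End K (Fin n → K)) + ((t - 1) / 2) • phi (cmp U V ((2 : K) • k - 1)) := by
      have h5 : 1 + (t - 1) • k = ((1 + t) / 2) • (1 : Matrix ι ι K) + ((t - 1) / 2) • ((2 : K) • k - 1) := by
        rw [smul_sub, smul_smul]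
        module
      rw [h5, map_add, map_smul, map_smul, H76U.cmp_one h.UV h.VU, map_add, map_smul, map_smul, map_one]
    rw [h4]
    exact Submonoid.subset_closure ⟨_, hkL, hyy, t, ht, rfl⟩
  · rw [H76U.cmp_one h.UV h.VU, map_one]
    exact Submonoid.one_mem _
  · rintro a b ha hb h1 h2
    rw [H76U.cmp_mul h.UV h.VU (cmp_comm h hb), map_mul]
    exact Submonoid.mul_mem _ h1 h2

/-- The local situation at a prime where the automorphism acts as the opposition. -/
theorem full_local (h : Loc J S 𝓗 e x q U V d Y) (hone : IsBlock (1 : Module.End ℚ Y))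
    (two : ∀ k : ℕ, 4 ≤ k → n ≠ 2 ^ k) {τ : K ≃+* K} (he : e.map τ = e)
    (hx : x.map τ = x) (hJ : J.map τ = J) (hS : ∀ s ∈ S, s.map τ = s)
    {bar : Equiv.Perm (Fin n)} (hσ : ∀ k, τ (d k) = d (bar k)) (hbar : ∀ k, d k * d (bar k) = q)
    {y : Matrix ι ι K} (hy : y ∈ 𝓗) (hyx : y * x = x * y) {g g' : Matrix ι ι K}
    (hg : g ∈ Submonoid.closure {y | ∃ k ∈ 𝓗, ∃ t : K, t ≠ 0 ∧ y = 1 + (t - 1) • k})
    (hgg : g * g' = 1) (hconj : y.map τ = g * y * g') :
    (∀ k, bar k ≠ k) ∧ ∀ f : Fin n → ℚ, (∀ k, f (bar k) = -f k) → f ∈ Y := by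
  classical
  have hne : Nonempty (Fin n) := ⟨⟨0, h.pos⟩⟩
  have hd0 : ∀ k, d k ≠ 0 := h.ec.ne
  have hpair : ∀ k l, (Uᵀ * J * U) k l ≠ 0 → l = bar k := pair_bar h hbar hd0
  have hex : ∀ k, (Uᵀ * J * U) k (bar k) ≠ 0 := by
    intro k h0
    have h1 : ∀ l, (Uᵀ * J * U) k l = 0 := by
      intro l
      by_contra h2
      have h3 := hpair k l h2
      rw [h3] at h2
      exact h2 h0
    have h3 := h.ts.cmp.Jd
    rw [Matrix.det_eq_zero_of_row_eq_zero k h1] at h3
    exact not_isUnit_zero h3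
  have hbne : ∀ k, bar k ≠ k := by
    intro k hk
    have h1 := congrFun (congrFun h.ts.cmp.Jt k) k
    rw [Matrix.transpose_apply, Matrix.neg_apply] at h1
    have h2 := hex k
    rw [hk] at h2
    exact h2 (self_eq_neg.1 h1)
  refine ⟨hbne, fun f hf => ?_⟩
  -- the involution
  obtain ⟨ε, hε⟩ := exists_HT h hy hyx
  obtain ⟨hval, hεY, hε1⟩ := HT_spec h hy hyx hε
  obtain ⟨hyy, hye, -, hyL⟩ := h.par y hy
  rw [hval] at hyL
  have hsq : (dq ε : Module.End K (Fin n → K)) * dq ε = 1 := by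
    unfold dq
    rw [dg_mul, ← dg_one]
    congr 1
    funext k
    rw [Pi.mul_apply, Pi.one_apply]
    rcases hε1 k with h1 | h1
    · rw [h1]
      norm_num
    · rw [h1]
      norm_num
  -- the semilinear automorphism
  obtain ⟨θ, hθ, hθU⟩ := exists_theta h he hx hJ hS hσ
  have hneg : θ (dq ε) = -dq ε := by
    unfold dq
    rw [hθ.diag]
    have h1 : ∀ k, (τ ((ε (bar.symm k) : ℚ) : K)) = -((ε k : ℚ) : K) := by
      intro k
      rw [map_ratCast]
      have h2 : ε k = -ε (bar.symm k) := by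
        have h3 := Pool.Agent.Lib.H86E.opp h.ts.cmp (by rw [h.yo]; exact hεY) (hex (bar.symm k))
        rwa [Equiv.apply_symm_apply] at h3
      rw [h2]
      push_cast
      ring
    have h2 : (fun k => τ ((ε (bar.symm k) : ℚ) : K)) = fun k => -((ε k : ℚ) : K) := funext h1
    rw [h2]
    refine LinearMap.ext fun z => ?_
    funext k
    simp [dg_apply]
  have hge : g * e = e * g := cmp_comm h hg
  have hg'g : g' * g = 1 := _root_.mul_eq_one_comm.1 hgg
  have hg'e : g' * e = e * g' := by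
    calc g' * e = g' * (e * (g * g')) := by rw [hgg, Matrix.mul_one]
      _ = g' * ((e * g) * g') := by rw [Matrix.mul_assoc e g g']
      _ = g' * ((g * e) * g') := by rw [hge]
      _ = (g' * g) * (e * g') := by simp only [Matrix.mul_assoc]
      _ = e * g' := by rw [hg'g, Matrix.one_mul]
  have hmul : ∀ A B : Matrix ι ι K, B * e = e * B → phi (cmp U V (A * B)) = phi (cmp U V A) * phi (cmp U V B) := by
    intro A B hB
    rw [Pool.Agent.H76U.cmp_mul h.UV h.VU hB, map_mul]
  have h2y : ((2 : K) • y - 1) * e = e * ((2 : K) • y - 1) := by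
    rw [sub_mul, mul_sub, one_mul, mul_one, smul_mul_assoc, mul_smul_comm, hye]
  have hGG : phi (cmp U V g) * phi (cmp U V g') = 1 := by
    rw [← hmul _ _ hg'e, hgg, Pool.Agent.H76U.cmp_one h.UV h.VU, map_one]
  have hflip : phi (cmp U V g) * dq ε * phi (cmp U V g') = -(dq ε : Module.End K (Fin n → K)) := by
    rw [← hneg, ← hval]
    have h1 : ∀ A : Matrix ι ι K, A * e = e * A → U * LinearMap.toMatrix' (phi (cmp U V A)) * V = A * e := by
      intro A hA
      have h2 : LinearMap.toMatrix' (phi (cmp U V A)) = cmp U V A := LinearMap.toMatrix'_toLin' _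
      rw [h2, Pool.Agent.H76U.P_cmp h.UV h.VU hA, Matrix.mul_assoc, ← h.UV]
    have hinj : ∀ X X' : Module.End K (Fin n → K), U * LinearMap.toMatrix' X * V = U * LinearMap.toMatrix' X' * V →
        X = X' := by
      intro X X' h2
      apply LinearMap.toMatrix'.injective
      have h3 : ∀ Z : Matrix (Fin n) (Fin n) K, V * (U * Z * V) * U = Z := by
        intro Z
        calc V * (U * Z * V) * U = (V * U) * Z * (V * U) := by simp only [Matrix.mul_assoc]
          _ = Z := by rw [h.VU, Matrix.mul_one, Matrix.one_mul]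
      rw [← h3 (LinearMap.toMatrix' X), h2, h3]
    apply hinj
    rw [← hθU, h1 _ h2y]
    have hcomm : (g * ((2 : K) • y - 1) * g') * e = e * (g * ((2 : K) • y - 1) * g') := by
      calc (g * ((2 : K) • y - 1) * g') * e = g * (((2 : K) • y - 1) * (g' * e)) := by simp only [Matrix.mul_assoc]
        _ = g * ((((2 : K) • y - 1) * e) * g') := by rw [hg'e]; simp only [Matrix.mul_assoc]
        _ = (g * e) * (((2 : K) • y - 1) * g') := by rw [h2y]; simp only [Matrix.mul_assoc]
        _ = e * (g * ((2 : K) • y - 1) * g') := by rw [hge]; simp only [Matrix.mul_assoc]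
    have h3 : phi (cmp U V g) * phi (cmp U V ((2 : K) • y - 1)) * phi (cmp U V g') =
        phi (cmp U V (g * ((2 : K) • y - 1) * g')) := by
      rw [hmul _ _ hg'e, hmul _ _ h2y]
    rw [h3, h1 _ hcomm, e3_map_mul, he]
    congr 1
    have h4 : ((2 : K) • y - 1).map τ = (2 : K) • y.map τ - 1 := by
      ext a b
      rw [Matrix.map_apply, Matrix.sub_apply, Matrix.sub_apply, Matrix.smul_apply, Matrix.smul_apply, Matrix.map_apply,
        smul_eq_mul, smul_eq_mul, map_sub, map_mul, map_ofNat]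
      congr 1
      by_cases hab : a = b
      · rw [hab, Matrix.one_apply_eq, map_one]
      · rw [Matrix.one_apply_ne hab, map_zero]
    rw [h4, hconj, Matrix.mul_sub, Matrix.sub_mul, Matrix.mul_one, hgg, Matrix.mul_smul, Matrix.smul_mul]
  -- the Lie algebra is full
  obtain ⟨I, hF⟩ := simple_of_one h.ts h.yo hone (by rw [Fintype.card_fin]; exact two)
  have hfull : ∀ X : Module.End K (Fin n → K), adjE (Uᵀ * J * U) X = -X → X ∈ Lc J S U V := by
    rcases Cmp.simple h.ts.cmp hF with h2 | ⟨k, hk, -, hk2, -⟩ | ⟨k, hk, hk2, hk3, hk4⟩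
    · exact h2
    · rw [Module.finrank_fintype_fun_eq_card, Fintype.card_fin] at hk2
      exact absurd hk2 (two k (by omega))
    · rw [Module.finrank_fintype_fun_eq_card] at hk3
      intro X hX
      refine flip_full h.ts.cmp hF hyL hsq (fun m hm => ?_) (gen_tset h hg) hGG hflip hX
      rw [hk3] at hm
      exact Pool.Agent.H49M.R3_binom_pow (by omega) hm
  rw [← h.yo]
  refine h.ts.diag f (hfull _ (Pool.Agent.Lib.H86E.skew_of_opp h.ts.cmp fun k l hkl => ?_))
  rw [hpair k l hkl]
  exact hf k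

end

end Pool.Agent.H86K
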